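import Mathlib

namespace Pool.Agent.Lib_MP_6575fe_co

open Finset

/-- `C(m,a) ≤ C(m,s)` for `a ≤ s ≤ m - a`. -/
theorem choose_mid (m a s : ℕ) (h1 : a ≤ s) (h2 : s + a ≤ m) : m.choose a ≤ m.choose s := by
  have key : ∀ t, a ≤ t → 2 * t ≤ m → m.choose a ≤ m.choose t := by
    intro t hat
    induction t, hat using Nat.le_induction with
    | base => intro _; exact le_rfl
    | succ t hat ih =>
      intro ht
      refine (ih (by omega)).trans ?_
      exact Nat.choose_le_succ_of_lt_half_left (by omega)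
  by_cases hs : 2 * s ≤ m
  · exact key s h1 hs
  · have := key (m - s) (by omega) (by omega)
    rwa [Nat.choose_symm (by omega)] at this

/-- A Vandermonde-type lower bound. -/
theorem vander (n1 n2 r1 r2 : ℕ) : n1.choose r1 * n2.choose r2 ≤ (n1 + n2).choose (r1 + r2) := by
  rw [Nat.add_choose_eq]
  have : (r1, r2) ∈ antidiagonal (r1 + r2) := by simp
  exact Finset.single_le_sum (f := fun ij : ℕ × ℕ => n1.choose ij.1 * n2.choose ij.2)
    (fun _ _ => Nat.zero_le _) this

theorem vander' (n r l : ℕ) :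
    (n / l).choose (r / l) * (n - n / l).choose (r - r / l) ≤ n.choose r := by
  have h := vander (n / l) (n - n / l) (r / l) (r - r / l)
  have e1 : n / l + (n - n / l) = n := by have := Nat.div_le_self n l; omega
  have e2 : r / l + (r - r / l) = r := by have := Nat.div_le_self r l; omega
  rwa [e1, e2] at h

theorem choose_ineq_large (n r : ℕ) (hn : 20 ≤ n) (hr : 3 ≤ r) (h : 2 * r ≤ n) :
    n * ∑ l ∈ (Finset.range (r + 1)).filter Nat.Prime, (n / l).choose (r / l) < n.choose r := by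
  set C := n.choose r with hC
  have hCpos : 0 < C := Nat.choose_pos (by omega)
  -- bounds for terms
  have h2 : (n / 2).choose (r / 2) * (n - n / 2).choose 2 ≤ C := by
    refine le_trans ?_ (vander' n r 2)
    exact Nat.mul_le_mul_left _ (choose_mid _ _ _ (by omega) (by omega))
  have h3 : (n / 3).choose (r / 3) * (n - n / 3).choose 2 ≤ C := by
    refine le_trans ?_ (vander' n r 3)
    exact Nat.mul_le_mul_left _ (choose_mid _ _ _ (by omega) (by omega))
  have h4 : ∀ l, 4 ≤ l → l ≤ r → (n / l).choose (r / l) * (n - n / 4).choose 3 ≤ C := by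
    intro l hl hlr
    refine le_trans ?_ (vander' n r l)
    have a1 : r / l ≤ r / 4 := Nat.div_le_div_left hl (by norm_num)
    have a2 : n / l ≤ n / 4 := Nat.div_le_div_left hl (by norm_num)
    have a3 : 1 ≤ r / l := (Nat.one_le_div_iff (by omega)).2 hlr
    refine Nat.mul_le_mul_left _ ?_
    calc (n - n / 4).choose 3 ≤ (n - n / l).choose 3 := Nat.choose_le_choose _ (by omega)
      _ ≤ _ := choose_mid _ _ _ (by omega) (by omega)
  -- split the sum
  have hsum : ∑ l ∈ (Finset.range (r + 1)).filter Nat.Prime, (n / l).choose (r / l) ≤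
      (n / 2).choose (r / 2) + (n / 3).choose (r / 3) +
        ∑ l ∈ Finset.Icc 4 r, (n / l).choose (r / l) := by
    have hsub : (Finset.range (r + 1)).filter Nat.Prime ⊆ insert 2 (insert 3 (Finset.Icc 4 r)) := by
      intro l hl
      simp only [Finset.mem_filter, Finset.mem_range] at hl
      simp only [Finset.mem_insert, Finset.mem_Icc]
      have := hl.2.two_le
      omega
    refine (Finset.sum_le_sum_of_subset hsub).trans ?_
    rw [Finset.sum_insert (by simp), Finset.sum_insert (by simp)]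
    omega
  -- rational estimates
  have q2 : (((n - n / 2).choose 2 : ℕ) : ℚ) ≥ n * (n - 2) / 8 := by
    rw [Nat.cast_choose_two]
    have : ((n - n / 2 : ℕ) : ℚ) ≥ n / 2 := by
      have h' : n ≤ 2 * (n - n / 2) := by omega
      have : (n : ℚ) ≤ 2 * ((n - n / 2 : ℕ) : ℚ) := by exact_mod_cast h'
      linarith
    have hn' : (20 : ℚ) ≤ n := by exact_mod_cast hn
    nlinarith
  have q3 : (((n - n / 3).choose 2 : ℕ) : ℚ) ≥ n * (2 * n - 3) / 9 := by
    rw [Nat.cast_choose_two]
    have : ((n - n / 3 : ℕ) : ℚ) ≥ 2 * n / 3 := by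
      have h' : 2 * n ≤ 3 * (n - n / 3) := by omega
      have : 2 * (n : ℚ) ≤ 3 * ((n - n / 3 : ℕ) : ℚ) := by exact_mod_cast h'
      linarith
    have hn' : (20 : ℚ) ≤ n := by exact_mod_cast hn
    nlinarith
  have q4 : (((n - n / 4).choose 3 : ℕ) : ℚ) ≥ n * (3 * n - 4) * (3 * n - 8) / 128 := by
    have e : ∀ m : ℕ, 2 ≤ m → ((m.choose 3 : ℕ) : ℚ) = m * (m - 1) * (m - 2) / 6 := by
      intro m hm
      have h := Nat.choose_mul_factorial_mul_factorial (n := m) (k := 3)
      have h1 : m.descFactorial 3 = m * (m - 1) * (m - 2) := by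
        simp [Nat.descFactorial]; ring
      have h2 := Nat.descFactorial_eq_factorial_mul_choose m 3
      rw [h1] at h2
      have h3 : (Nat.factorial 3) = 6 := rfl
      rw [h3] at h2
      have h4 : ((m * (m - 1) * (m - 2) : ℕ) : ℚ) = ((6 * m.choose 3 : ℕ) : ℚ) := by rw [h2]
      push_cast [Nat.cast_sub (show 1 ≤ m by omega), Nat.cast_sub hm] at h4
      linarith
    rw [e _ (by omega)]
    have hx : ((n - n / 4 : ℕ) : ℚ) ≥ 3 * n / 4 := by
      have h' : 3 * n ≤ 4 * (n - n / 4) := by omega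
      have : 3 * (n : ℚ) ≤ 4 * ((n - n / 4 : ℕ) : ℚ) := by exact_mod_cast h'
      linarith
    have hn' : (20 : ℚ) ≤ n := by exact_mod_cast hn
    set x := ((n - n / 4 : ℕ) : ℚ) with hxdef
    have y0 : (0:ℚ) ≤ 3 * n / 4 - 2 := by linarith
    have m1 : 3 * (n:ℚ) / 4 * (3 * n / 4 - 1) ≤ x * (x - 1) := by nlinarith
    have m2 : 3 * (n:ℚ) / 4 * (3 * n / 4 - 1) * (3 * n / 4 - 2) ≤ x * (x - 1) * (x - 2) := by
      apply mul_le_mul m1 (by linarith) y0
      nlinarith
    nlinarith
  -- conclusion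
  have hn' : (20 : ℚ) ≤ n := by exact_mod_cast hn
  have hr' : (r : ℚ) ≤ n / 2 := by
    have : (2 * r : ℚ) ≤ n := by exact_mod_cast h
    linarith
  have hCq : (0 : ℚ) < C := by exact_mod_cast hCpos
  have A0 : (0 : ℚ) < n * (n - 2) / 8 := by
    have : (0:ℚ) < n * (n - 2) := by nlinarith
    linarith
  have B0 : (0 : ℚ) < n * (2 * n - 3) / 9 := by
    have : (0:ℚ) < n * (2 * n - 3) := by nlinarith
    linarith
  have D0 : (0 : ℚ) < n * (3 * n - 4) * (3 * n - 8) / 128 := by
    have : (0:ℚ) < n * (3 * n - 4) := by nlinarith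
    have : (0:ℚ) < n * (3 * n - 4) * (3 * n - 8) := by nlinarith
    linarith
  have t2 : (((n / 2).choose (r / 2) : ℕ) : ℚ) ≤ C / (n * (n - 2) / 8) := by
    rw [le_div_iff₀ A0]
    have : ((((n / 2).choose (r / 2) * (n - n / 2).choose 2 : ℕ)) : ℚ) ≤ C := by exact_mod_cast h2
    push_cast at this
    refine le_trans ?_ this
    exact mul_le_mul_of_nonneg_left q2 (by positivity)
  have t3 : (((n / 3).choose (r / 3) : ℕ) : ℚ) ≤ C / (n * (2 * n - 3) / 9) := by
    rw [le_div_iff₀ B0]
    have : ((((n / 3).choose (r / 3) * (n - n / 3).choose 2 : ℕ)) : ℚ) ≤ C := by exact_mod_cast h3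
    push_cast at this
    refine le_trans ?_ this
    exact mul_le_mul_of_nonneg_left q3 (by positivity)
  have t4 : ∀ l ∈ Finset.Icc 4 r, (((n / l).choose (r / l) : ℕ) : ℚ) ≤
      C / (n * (3 * n - 4) * (3 * n - 8) / 128) := by
    intro l hl
    rw [Finset.mem_Icc] at hl
    rw [le_div_iff₀ D0]
    have : ((((n / l).choose (r / l) * (n - n / 4).choose 3 : ℕ)) : ℚ) ≤ C := by
      exact_mod_cast h4 l hl.1 hl.2
    push_cast at this
    refine le_trans ?_ this
    exact mul_le_mul_of_nonneg_left q4 (by positivity)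
  have t5 : ((∑ l ∈ Finset.Icc 4 r, (n / l).choose (r / l) : ℕ) : ℚ) ≤
      (n / 2 - 3) * (C / (n * (3 * n - 4) * (3 * n - 8) / 128)) := by
    push_cast
    refine (Finset.sum_le_sum t4).trans ?_
    rw [Finset.sum_const, nsmul_eq_mul, Nat.card_Icc]
    apply mul_le_mul_of_nonneg_right _ (by positivity)
    have : ((r + 1 - 4 : ℕ) : ℚ) = (r : ℚ) - 3 := by
      rw [show r + 1 - 4 = r - 3 by omega, Nat.cast_sub hr]; norm_num
    rw [this]; linarith
  have fin : (n : ℚ) * (C / (n * (n - 2) / 8) + C / (n * (2 * n - 3) / 9) +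
      (n / 2 - 3) * (C / (n * (3 * n - 4) * (3 * n - 8) / 128))) < C := by
    have e : (n : ℚ) * (C / (n * (n - 2) / 8) + C / (n * (2 * n - 3) / 9) +
      (n / 2 - 3) * (C / (n * (3 * n - 4) * (3 * n - 8) / 128))) =
      C * (8 / (n - 2) + 9 / (2 * n - 3) + 64 * (n - 6) / ((3 * n - 4) * (3 * n - 8))) := by
      have a1 : (n : ℚ) ≠ 0 := by linarith
      have a2 : (n : ℚ) - 2 ≠ 0 := by linarith
      have a3 : 2 * (n : ℚ) - 3 ≠ 0 := by linarith
      have a4 : 3 * (n : ℚ) - 4 ≠ 0 := by linarith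
      have a5 : 3 * (n : ℚ) - 8 ≠ 0 := by linarith
      field_simp
      ring
    rw [e]
    have : 8 / ((n:ℚ) - 2) + 9 / (2 * n - 3) + 64 * (n - 6) / ((3 * n - 4) * (3 * n - 8)) < 1 := by
      have b2 : 0 < (n : ℚ) - 2 := by linarith
      have b3 : 0 < 2 * (n : ℚ) - 3 := by linarith
      have b4 : 0 < 3 * (n : ℚ) - 4 := by linarith
      have b5 : 0 < 3 * (n : ℚ) - 8 := by linarith
      rw [div_add_div _ _ b2.ne' b3.ne', div_add_div _ _ (by positivity) (by positivity),
        div_lt_one (by positivity)]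
      obtain ⟨t, ht⟩ : ∃ t : ℚ, t = n - 20 := ⟨_, rfl⟩
      have ht0 : 0 ≤ t := by linarith
      have hnt : (n : ℚ) = t + 20 := by linarith
      rw [hnt]
      have := mul_nonneg ht0 ht0
      have := mul_nonneg (mul_nonneg ht0 ht0) ht0
      have := mul_nonneg (mul_nonneg (mul_nonneg ht0 ht0) ht0) ht0
      nlinarith
    nlinarith
  have hfinal : ((n * ∑ l ∈ (Finset.range (r + 1)).filter Nat.Prime, (n / l).choose (r / l) : ℕ) : ℚ)
      < C := by
    refine lt_of_le_of_lt ?_ fin
    have : ((∑ l ∈ (Finset.range (r + 1)).filter Nat.Prime, (n / l).choose (r / l) : ℕ) : ℚ) ≤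
      (((n / 2).choose (r / 2) + (n / 3).choose (r / 3) +
        ∑ l ∈ Finset.Icc 4 r, (n / l).choose (r / l) : ℕ) : ℚ) := by exact_mod_cast hsum
    rw [Nat.cast_mul]
    apply mul_le_mul_of_nonneg_left _ (by positivity)
    refine this.trans ?_
    rw [Nat.cast_add, Nat.cast_add]
    exact add_le_add (add_le_add t2 t3) t5
  exact_mod_cast hfinal

theorem choose_ineq_small : ∀ n ∈ Finset.Ico 8 20, ∀ r ∈ Finset.Ico 3 10, 2 * r ≤ n →
    n * ∑ l ∈ (Finset.range (r + 1)).filter Nat.Prime, (n / l).choose (r / l) < n.choose r := by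
  decide +kernel

theorem choose_ineq (n r : ℕ) (hn : 8 ≤ n) (hr : 3 ≤ r) (h : 2 * r ≤ n) :
    n * ∑ l ∈ (Finset.range (r + 1)).filter Nat.Prime, (n / l).choose (r / l) < n.choose r := by
  rcases Nat.lt_or_ge n 20 with h20 | h20
  · exact choose_ineq_small n (Finset.mem_Ico.2 ⟨hn, h20⟩) r
      (Finset.mem_Ico.2 ⟨hr, by omega⟩) h
  · exact choose_ineq_large n r h20 hr h

/-- The inequality used for `d ≥ 2`. -/
theorem choose_ineq2 (M j : ℕ) (hj : 3 ≤ j) (h : 2 * j ≤ M) :
    ∑ l ∈ j.primeFactors, (M / l).choose (j / l) + M * (M / 3).choose (j / 3) < M.choose j := by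
  rcases Nat.lt_or_ge M 8 with h8 | h8
  · have hj3 : j = 3 := by omega
    subst hj3
    have hp : (3 : ℕ).primeFactors = {3} := Nat.Prime.primeFactors (by norm_num)
    rw [hp, Finset.sum_singleton]
    have : M = 6 ∨ M = 7 := by omega
    rcases this with rfl | rfl <;> decide
  · refine lt_of_le_of_lt ?_ (choose_ineq M j h8 hj h)
    set P := (Finset.range (j + 1)).filter Nat.Prime with hP
    set T : ℕ → ℕ := fun l => (M / l).choose (j / l) with hT
    have h2P : 2 ∈ P := by
      rw [hP, Finset.mem_filter, Finset.mem_range]; exact ⟨by omega, Nat.prime_two⟩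
    have h3P : 3 ∈ P.erase 2 := by
      rw [Finset.mem_erase, hP, Finset.mem_filter, Finset.mem_range]
      exact ⟨by norm_num, by omega, Nat.prime_three⟩
    have hsub : j.primeFactors ⊆ P := by
      intro l hl
      rw [hP, Finset.mem_filter, Finset.mem_range]
      exact ⟨by have := Nat.le_of_mem_primeFactors hl; omega, Nat.prime_of_mem_primeFactors hl⟩
    have e : ∑ l ∈ P, T l = T 2 + (T 3 + ∑ l ∈ (P.erase 2).erase 3, T l) := by
      rw [Finset.add_sum_erase _ _ h3P, Finset.add_sum_erase _ _ h2P]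
    have h32 : T 3 ≤ T 2 := by
      show (M / 3).choose (j / 3) ≤ (M / 2).choose (j / 2)
      calc (M / 3).choose (j / 3) ≤ (M / 2).choose (j / 3) := Nat.choose_le_choose _ (by omega)
        _ ≤ (M / 2).choose (j / 2) := choose_mid _ _ _ (by omega) (by omega)
    have hs : ∑ l ∈ j.primeFactors, T l ≤ ∑ l ∈ P, T l := Finset.sum_le_sum_of_subset hsub
    show ∑ l ∈ j.primeFactors, T l + M * T 3 ≤ M * ∑ l ∈ P, T l
    rw [e] at hs ⊢
    set R := ∑ l ∈ (P.erase 2).erase 3, T l with hR
    have m2 : 2 * T 2 ≤ M * T 2 := Nat.mul_le_mul_right _ (by omega)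
    have m3 : 1 * R ≤ M * R := Nat.mul_le_mul_right _ (by omega)
    rw [mul_add, mul_add]
    omega

end Pool.Agent.Lib_MP_6575fe_co
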