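import Mathlib

namespace Pool.Agent.Lib_MP_6575fe_co

open Finset

open scoped Classical in
theorem sat_card_eq {α : Type*} [Fintype α] (r : Setoid α) (Y : Finset α) (m : ℕ)
    (hcls : ∀ y ∈ Y, (univ.filter (fun z => r y z)).card = m) (B : Finset α) (hB : B ⊆ Y)
    (hs : ∀ x ∈ B, ∀ y, r x y → y ∈ B) :
    B.card = m * (B.image (Quotient.mk r)).card := by
  rw [Finset.card_eq_sum_card_image (Quotient.mk r) B, mul_comm, ← smul_eq_mul,
    ← Finset.sum_const]
  apply Finset.sum_congr rfl
  intro b hb
  obtain ⟨y, hy, rfl⟩ := Finset.mem_image.1 hb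
  rw [← hcls y (hB hy)]
  congr 1
  ext z
  simp only [Finset.mem_filter, Finset.mem_univ, true_and]
  constructor
  · rintro ⟨_, h⟩
    exact r.symm (Quotient.exact h)
  · intro h
    exact ⟨hs y hy z h, Quotient.sound (r.symm h)⟩

open scoped Classical in
theorem card_sat {α : Type*} [Fintype α] (r : Setoid α) (Y : Finset α)
    (hY : ∀ x ∈ Y, ∀ y, r x y → y ∈ Y) (m : ℕ) (hm : 0 < m)
    (hcls : ∀ y ∈ Y, (univ.filter (fun z => r y z)).card = m) (i : ℕ) :
    ((univ : Finset (Finset α)).filter
      (fun B => B ⊆ Y ∧ (∀ x ∈ B, ∀ y, r x y → y ∈ B) ∧ B.card = m * i)).card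
      = (Y.card / m).choose i := by
  have hYc : Y.card / m = (Y.image (Quotient.mk r)).card := by
    have := sat_card_eq r Y m hcls Y (Finset.Subset.refl _) hY
    rw [this, Nat.mul_div_cancel_left _ hm]
  rw [hYc, ← Finset.card_powersetCard]
  apply Finset.card_nbij' (fun B => B.image (Quotient.mk r))
    (fun P => univ.filter (fun y => Quotient.mk r y ∈ P))
  · intro B hB
    simp only [Finset.coe_filter, Finset.mem_univ, true_and, Set.mem_ofPred_eq] at hB
    simp only [Finset.mem_coe, Finset.mem_powersetCard]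
    refine ⟨Finset.image_subset_image hB.1, ?_⟩
    have := sat_card_eq r Y m hcls B hB.1 hB.2.1
    rw [hB.2.2] at this
    exact (Nat.eq_of_mul_eq_mul_left hm this).symm
  · intro P hP
    simp only [Finset.mem_coe, Finset.mem_powersetCard] at hP
    simp only [Finset.coe_filter, Finset.mem_univ, true_and, Set.mem_ofPred_eq]
    have h1 : (univ.filter (fun y => Quotient.mk r y ∈ P)) ⊆ Y := by
      intro x hx
      simp only [Finset.mem_filter, Finset.mem_univ, true_and] at hx
      obtain ⟨y, hy, hyx⟩ := Finset.mem_image.1 (hP.1 hx)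
      exact hY y hy x (Quotient.exact hyx)
    have h2 : ∀ x ∈ (univ.filter (fun y => Quotient.mk r y ∈ P)), ∀ y, r x y →
        y ∈ (univ.filter (fun y => Quotient.mk r y ∈ P)) := by
      intro x hx y hxy
      simp only [Finset.mem_filter, Finset.mem_univ, true_and] at hx ⊢
      rw [← Quotient.sound hxy]; exact hx
    refine ⟨h1, h2, ?_⟩
    rw [sat_card_eq r Y m hcls _ h1 h2]
    congr 1
    rw [← hP.2]
    congr 1
    ext c
    simp only [Finset.mem_image, Finset.mem_filter, Finset.mem_univ, true_and]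
    constructor
    · rintro ⟨x, hx, rfl⟩; exact hx
    · intro hc
      obtain ⟨y, rfl⟩ := Quotient.exists_rep c
      exact ⟨y, hc, rfl⟩
  · intro B hB
    simp only [Finset.coe_filter, Finset.mem_univ, true_and, Set.mem_ofPred_eq] at hB
    ext x
    simp only [Finset.mem_filter, Finset.mem_univ, true_and, Finset.mem_image]
    constructor
    · rintro ⟨y, hy, hyx⟩
      exact hB.2.1 y hy x (Quotient.exact hyx)
    · intro hx
      exact ⟨x, hx, rfl⟩
  · intro P hP
    ext c
    simp only [Finset.mem_image, Finset.mem_filter, Finset.mem_univ, true_and]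
    constructor
    · rintro ⟨x, hx, rfl⟩; exact hx
    · intro hc
      obtain ⟨y, rfl⟩ := Quotient.exists_rep c
      exact ⟨y, hc, rfl⟩

end Pool.Agent.Lib_MP_6575fe_co
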