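import Mathlib
import Pool.Agent.Lib_MP_6575fe_co.Sat

namespace Pool.Agent.Lib_MP_6575fe_co

open Finset

set_option linter.unusedSectionVars false

variable {F : Type*} [Field F] [Fintype F]

/-- `H` is stable under multiplication by the `d`-th roots of unity. -/
def MuStable (d : ℕ) (H : AddSubgroup F) : Prop := ∀ u : F, u ^ d = 1 → ∀ h ∈ H, u * h ∈ H

/-- `B` is invariant under all maps `x ↦ u x + h`, `u ^ d = 1`, `h ∈ H`. -/
def IsInv (d : ℕ) (H : AddSubgroup F) (B : Finset F) : Prop :=
  ∀ u : F, u ^ d = 1 → ∀ h ∈ H, ∀ x ∈ B, u * x + h ∈ B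

theorem exists_prim {d : ℕ} (hd : d ∣ Nat.card F - 1) : ∃ ζ : F, IsPrimitiveRoot ζ d := by
  classical
  obtain ⟨g, hg⟩ := IsCyclic.exists_ofOrder_eq_natCard (α := Fˣ)
  have hc : Nat.card Fˣ = Nat.card F - 1 := by
    rw [Nat.card_eq_fintype_card, Nat.card_eq_fintype_card, Fintype.card_units]
  have hpos : orderOf g ≠ 0 := (orderOf_pos g).ne'
  have hd' : d ∣ orderOf g := by rw [hg, hc]; exact hd
  have := orderOf_pow_orderOf_div hpos hd'
  refine ⟨((g ^ (orderOf g / d) : Fˣ) : F), ?_⟩
  rw [IsPrimitiveRoot.coe_units_iff]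
  have h2 := IsPrimitiveRoot.orderOf (g ^ (orderOf g / d))
  rwa [this] at h2

theorem d_pos {d : ℕ} (hd : d ∣ Nat.card F - 1) : 0 < d := by
  rcases Nat.eq_zero_or_pos d with h | h
  · subst h
    rw [Nat.zero_dvd] at hd
    have : 1 < Nat.card F := Finite.one_lt_card
    omega
  · exact h

open scoped Classical in
theorem card_mu {d : ℕ} (hd : d ∣ Nat.card F - 1) :
    (univ.filter (fun u : F => u ^ d = 1)).card = d := by
  obtain ⟨ζ, hζ⟩ := exists_prim hd
  refine Eq.trans ?_ hζ.card_nthRootsFinset
  congr 1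
  ext u
  rw [Polynomial.mem_nthRootsFinset (d_pos hd)]
  simp

theorem ne_zero_of_pow {d : ℕ} (hd : 0 < d) {u : F} (hu : u ^ d = 1) : u ≠ 0 := by
  rintro rfl
  rw [zero_pow hd.ne'] at hu
  exact zero_ne_one hu

theorem inv_pow_one {d : ℕ} {u : F} (hu : u ^ d = 1) : (u⁻¹) ^ d = 1 := by
  rw [inv_pow, hu, inv_one]

theorem mem_of_mul_mem (H : AddSubgroup F) (c : F) (hc : c ≠ 0) (hH : ∀ h ∈ H, c * h ∈ H)
    (y : F) (hy : c * y ∈ H) : y ∈ H := by
  let f : H → H := fun h => ⟨c * h, hH h h.2⟩
  have hf : Function.Injective f := by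
    intro a b hab
    have : c * (a : F) = c * b := congrArg Subtype.val hab
    exact Subtype.ext (mul_left_cancel₀ hc this)
  obtain ⟨h, hh⟩ := (Finite.injective_iff_surjective.1 hf) ⟨c * y, hy⟩
  have : c * (h : F) = c * y := congrArg Subtype.val hh
  rw [← mul_left_cancel₀ hc this]
  exact h.2

theorem sub_stable {d : ℕ} {H : AddSubgroup F} (hH : MuStable d H) {u v : F} (hu : u ^ d = 1)
    (hv : v ^ d = 1) : ∀ h ∈ H, (u - v) * h ∈ H := by
  intro h hh
  rw [sub_mul]
  exact H.sub_mem (hH u hu h hh) (hH v hv h hh)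

/-- The orbit relation of the group `x ↦ u x + h`. -/
def orb (d : ℕ) (hd : 0 < d) (H : AddSubgroup F) (hH : MuStable d H) : Setoid F where
  r x y := ∃ u : F, u ^ d = 1 ∧ y - u * x ∈ H
  iseqv := by
    refine ⟨?_, ?_, ?_⟩
    · intro x
      exact ⟨1, one_pow _, by simp⟩
    · rintro x y ⟨u, hu, h⟩
      refine ⟨u⁻¹, inv_pow_one hu, ?_⟩
      have h1 := hH _ (inv_pow_one hu) _ (H.neg_mem h)
      have hu0 := ne_zero_of_pow hd hu
      have e : u⁻¹ * -(y - u * x) = x - u⁻¹ * y := by
        field_simp
        ring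
      rwa [e] at h1
    · rintro x y z ⟨u, hu, h⟩ ⟨v, hv, h'⟩
      refine ⟨v * u, by rw [mul_pow, hu, hv, one_mul], ?_⟩
      have h1 := H.add_mem h' (hH v hv _ h)
      have e : z - v * y + v * (y - u * x) = z - v * u * x := by ring
      rwa [e] at h1

theorem orb_iff {d : ℕ} {hd : 0 < d} {H : AddSubgroup F} {hH : MuStable d H} {x y : F} :
    orb d hd H hH x y ↔ ∃ u : F, u ^ d = 1 ∧ y - u * x ∈ H := Iff.rfl

theorem isInv_iff {d : ℕ} {hd : 0 < d} {H : AddSubgroup F} {hH : MuStable d H} {B : Finset F} :
    IsInv d H B ↔ ∀ x ∈ B, ∀ y, orb d hd H hH x y → y ∈ B := by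
  constructor
  · rintro h x hx y ⟨u, hu, hy⟩
    have := h u hu _ hy x hx
    rwa [add_sub_cancel] at this
  · intro h u hu t ht x hx
    refine h x hx _ ⟨u, hu, ?_⟩
    simpa using ht

open scoped Classical in
theorem card_class {d : ℕ} (hdq : d ∣ Nat.card F - 1) (hd : 0 < d) (H : AddSubgroup F)
    (hH : MuStable d H) (y : F) (hy : y ∉ H) :
    (univ.filter (fun z => orb d hd H hH y z)).card = d * Nat.card H := by
  have e : (univ.filter (fun z => orb d hd H hH y z)) =
      ((univ.filter (fun u : F => u ^ d = 1)) ×ˢ (univ.filter (fun h : F => h ∈ H))).image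
        (fun p => p.1 * y + p.2) := by
    ext z
    simp only [Finset.mem_filter, Finset.mem_univ, true_and, Finset.mem_image,
      Finset.mem_product, Prod.exists, orb_iff]
    constructor
    · rintro ⟨u, hu, h⟩
      exact ⟨u, z - u * y, ⟨hu, h⟩, by ring⟩
    · rintro ⟨u, h, ⟨hu, hh⟩, rfl⟩
      exact ⟨u, hu, by simpa using hh⟩
  rw [e, Finset.card_image_of_injOn, Finset.card_product, card_mu hdq]
  · congr 1
    rw [Nat.card_eq_fintype_card, Fintype.card_subtype]
  · rintro ⟨u, h⟩ hp ⟨v, k⟩ hq heq
    simp only [Finset.coe_product, Finset.coe_filter, Finset.mem_univ, true_and,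
      Set.mem_prod, Set.mem_ofPred_eq] at hp hq
    simp only at heq
    have huv : u = v := by
      by_contra hne
      apply hy
      refine mem_of_mul_mem H (u - v) (sub_ne_zero.2 hne) (sub_stable hH hp.1 hq.1) y ?_
      have : (u - v) * y = k - h := by linear_combination heq
      rw [this]
      exact H.sub_mem hq.2 hp.2
    subst huv
    have : h = k := by linear_combination heq
    rw [this]

open scoped Classical in
theorem card_class_one (H : AddSubgroup F) (hH : MuStable 1 H) (y : F) :
    (univ.filter (fun z => orb 1 Nat.one_pos H hH y z)).card = Nat.card H := by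
  have e : (univ.filter (fun z => orb 1 Nat.one_pos H hH y z)) =
      ((univ.filter (fun h : F => h ∈ H))).image (fun p => y + p) := by
    ext z
    simp only [Finset.mem_filter, Finset.mem_univ, true_and, Finset.mem_image, orb_iff, pow_one]
    constructor
    · rintro ⟨u, rfl, h⟩
      exact ⟨z - y, by simpa using h, by ring⟩
    · rintro ⟨h, hh, rfl⟩
      exact ⟨1, rfl, by simpa using hh⟩
  rw [e, Finset.card_image_of_injective _ (add_right_injective y),
    Nat.card_eq_fintype_card, Fintype.card_subtype]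

open scoped Classical in
theorem card_compl (H : AddSubgroup F) :
    (univ.filter (fun y : F => y ∉ H)).card = Nat.card F - Nat.card H := by
  rw [Finset.filter_not, Finset.card_sdiff_of_subset (Finset.filter_subset _ _),
    Nat.card_eq_fintype_card, Nat.card_eq_fintype_card, Fintype.card_subtype]
  rfl

theorem zero_mem_of_mem {d : ℕ} {H : AddSubgroup F} {B : Finset F} (hB : IsInv d H B)
    {x : F} (hx : x ∈ B) (hxH : x ∈ H) : (0 : F) ∈ B := by
  have := hB 1 (one_pow _) (-x) (H.neg_mem hxH) x hx
  simpa using this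

theorem mem_of_zero_mem {d : ℕ} {H : AddSubgroup F} {B : Finset F} (hB : IsInv d H B)
    (h0 : (0 : F) ∈ B) {x : F} (hxH : x ∈ H) : x ∈ B := by
  have := hB 1 (one_pow _) x hxH 0 h0
  simpa using this

open scoped Classical in
/-- Number of invariant sets that avoid `0`. -/
theorem card_inv_false {d : ℕ} (hdq : d ∣ Nat.card F - 1) (H : AddSubgroup F)
    (hH : MuStable d H) (i : ℕ) :
    ((univ : Finset (Finset F)).filter
      (fun B => IsInv d H B ∧ (0 : F) ∉ B ∧ B.card = d * Nat.card H * i)).card
      = ((Nat.card F - Nat.card H) / (d * Nat.card H)).choose i := by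
  have hd := d_pos hdq
  have hm : 0 < d * Nat.card H := Nat.mul_pos hd Nat.card_pos
  rw [← card_compl H]
  rw [← card_sat (orb d hd H hH) (univ.filter (fun y : F => y ∉ H)) ?_ (d * Nat.card H) hm ?_ i]
  · congr 1
    ext B
    simp only [Finset.mem_filter, Finset.mem_univ, true_and]
    constructor
    · rintro ⟨h1, h2, h3⟩
      refine ⟨?_, isInv_iff.1 h1, h3⟩
      intro x hx
      simp only [Finset.mem_filter, Finset.mem_univ, true_and]
      intro hxH
      exact h2 (zero_mem_of_mem h1 hx hxH)
    · rintro ⟨h1, h2, h3⟩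
      refine ⟨isInv_iff.2 h2, ?_, h3⟩
      intro h0
      have := h1 h0
      simp only [Finset.mem_filter, Finset.mem_univ, true_and] at this
      exact this H.zero_mem
  · rintro x hx y ⟨u, hu, h⟩
    simp only [Finset.mem_filter, Finset.mem_univ, true_and] at hx ⊢
    intro hy
    apply hx
    have h1 := hH _ (inv_pow_one hu) _ (H.sub_mem hy h)
    have hu0 := ne_zero_of_pow hd hu
    have e : u⁻¹ * (y - (y - u * x)) = x := by field_simp; ring
    rwa [e] at h1
  · intro y hy
    simp only [Finset.mem_filter, Finset.mem_univ, true_and] at hy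
    exact card_class hdq hd H hH y hy

open scoped Classical in
/-- Number of invariant sets that contain `0`. -/
theorem card_inv_true {d : ℕ} (hdq : d ∣ Nat.card F - 1) (H : AddSubgroup F)
    (hH : MuStable d H) (i : ℕ) :
    ((univ : Finset (Finset F)).filter
      (fun B => IsInv d H B ∧ (0 : F) ∈ B ∧ B.card = Nat.card H + d * Nat.card H * i)).card
      = ((Nat.card F - Nat.card H) / (d * Nat.card H)).choose i := by
  have hd := d_pos hdq
  rw [← card_inv_false hdq H hH i]
  have hcH : (univ.filter (fun y : F => y ∈ H)).card = Nat.card H := by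
    rw [Nat.card_eq_fintype_card, Fintype.card_subtype]
  apply Finset.card_nbij' (fun B => B.filter (fun y => y ∉ H))
    (fun B => B ∪ univ.filter (fun y => y ∈ H))
  · intro B hB
    simp only [Finset.coe_filter, Finset.mem_univ, true_and, Set.mem_ofPred_eq] at hB ⊢
    obtain ⟨h1, h2, h3⟩ := hB
    refine ⟨?_, ?_, ?_⟩
    · intro u hu t ht x hx
      rw [Finset.mem_filter] at hx ⊢
      refine ⟨h1 u hu t ht x hx.1, ?_⟩
      intro h4
      apply hx.2
      have h5 := hH _ (inv_pow_one hu) _ (H.sub_mem h4 ht)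
      have hu0 := ne_zero_of_pow hd hu
      have e : u⁻¹ * (u * x + t - t) = x := by field_simp; ring
      rwa [e] at h5
    · rw [Finset.mem_filter]
      intro h; exact h.2 H.zero_mem
    · have e := Finset.card_filter_add_card_filter_not (s := B) (fun y => y ∈ H)
      have e2 : (B.filter (fun y => y ∈ H)) = univ.filter (fun y : F => y ∈ H) := by
        ext x
        simp only [Finset.mem_filter, Finset.mem_univ, true_and]
        exact ⟨fun h => h.2, fun h => ⟨mem_of_zero_mem h1 h2 h, h⟩⟩
      rw [e2, hcH, h3] at e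
      omega
  · intro B hB
    simp only [Finset.coe_filter, Finset.mem_univ, true_and, Set.mem_ofPred_eq] at hB ⊢
    obtain ⟨h1, h2, h3⟩ := hB
    refine ⟨?_, ?_, ?_⟩
    · intro u hu t ht x hx
      rw [Finset.mem_union, Finset.mem_filter] at hx ⊢
      rcases hx with hx | hx
      · exact Or.inl (h1 u hu t ht x hx)
      · exact Or.inr ⟨Finset.mem_univ _, H.add_mem (hH u hu x hx.2) ht⟩
    · rw [Finset.mem_union, Finset.mem_filter]
      exact Or.inr ⟨Finset.mem_univ _, H.zero_mem⟩
    · rw [Finset.card_union_of_disjoint, h3, hcH, add_comm]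
      rw [Finset.disjoint_left]
      intro x hx hx'
      rw [Finset.mem_filter] at hx'
      exact h2 (zero_mem_of_mem h1 hx hx'.2)
  · intro B hB
    simp only [Finset.coe_filter, Finset.mem_univ, true_and, Set.mem_ofPred_eq] at hB
    obtain ⟨h1, h2, h3⟩ := hB
    ext x
    simp only [Finset.mem_union, Finset.mem_filter, Finset.mem_univ, true_and]
    constructor
    · rintro (h | h)
      · exact h.1
      · exact mem_of_zero_mem h1 h2 h
    · intro h
      by_cases hx : x ∈ H
      · exact Or.inr hx
      · exact Or.inl ⟨h, hx⟩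
  · intro B hB
    simp only [Finset.coe_filter, Finset.mem_univ, true_and, Set.mem_ofPred_eq] at hB
    obtain ⟨h1, h2, h3⟩ := hB
    ext x
    simp only [Finset.mem_union, Finset.mem_filter, Finset.mem_univ, true_and]
    constructor
    · rintro ⟨h | h, h'⟩
      · exact h
      · exact absurd h h'
    · intro h
      exact ⟨Or.inl h, fun hx => h2 (zero_mem_of_mem h1 h hx)⟩

open scoped Classical in
/-- Number of `H`-periodic sets. -/
theorem card_inv_one (H : AddSubgroup F) (i : ℕ) :
    ((univ : Finset (Finset F)).filter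
      (fun B => IsInv 1 H B ∧ B.card = Nat.card H * i)).card
      = (Nat.card F / Nat.card H).choose i := by
  have hH : MuStable 1 H := by
    intro u hu h hh
    rw [pow_one] at hu; subst hu; simpa using hh
  have h := card_sat (orb 1 Nat.one_pos H hH) univ (fun _ _ _ _ => Finset.mem_univ _)
    (Nat.card H) Nat.card_pos (fun y _ => card_class_one H hH y) i
  rw [Finset.card_univ, ← Nat.card_eq_fintype_card] at h
  rw [← h]
  congr 1
  ext B
  simp only [Finset.mem_filter, Finset.mem_univ, true_and, Finset.subset_univ]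
  rw [isInv_iff (hd := Nat.one_pos) (hH := hH)]

open scoped Classical in
/-- Possible sizes of invariant sets. -/
theorem card_form {d : ℕ} (hdq : d ∣ Nat.card F - 1) (H : AddSubgroup F)
    (hH : MuStable d H) (B : Finset F) (hB : IsInv d H B) :
    ∃ i, B.card = (if (0 : F) ∈ B then Nat.card H else 0) + d * Nat.card H * i := by
  have hd := d_pos hdq
  have hcH : (univ.filter (fun y : F => y ∈ H)).card = Nat.card H := by
    rw [Nat.card_eq_fintype_card, Fintype.card_subtype]
  have key : ∃ i, (B.filter (fun y => y ∉ H)).card = d * Nat.card H * i := by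
    refine ⟨_, sat_card_eq (orb d hd H hH) (univ.filter (fun y : F => y ∉ H)) _ ?_ _ ?_ ?_⟩
    · intro y hy
      simp only [Finset.mem_filter, Finset.mem_univ, true_and] at hy
      exact card_class hdq hd H hH y hy
    · intro x hx
      simp only [Finset.mem_filter, Finset.mem_univ, true_and] at hx ⊢
      exact hx.2
    · rintro x hx y ⟨u, hu, h⟩
      rw [Finset.mem_filter] at hx ⊢
      refine ⟨(isInv_iff (hd := hd) (hH := hH)).1 hB x hx.1 y ⟨u, hu, h⟩, ?_⟩
      intro hy
      apply hx.2
      have h1 := hH _ (inv_pow_one hu) _ (H.sub_mem hy h)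
      have hu0 := ne_zero_of_pow hd hu
      have e : u⁻¹ * (y - (y - u * x)) = x := by field_simp; ring
      rwa [e] at h1
  obtain ⟨i, hi⟩ := key
  refine ⟨i, ?_⟩
  have e := Finset.card_filter_add_card_filter_not (s := B) (fun y => y ∈ H)
  rw [← e, hi]
  congr 1
  split_ifs with h0
  · rw [← hcH]
    congr 1
    ext x
    simp only [Finset.mem_filter, Finset.mem_univ, true_and]
    exact ⟨fun h => h.2, fun h => ⟨mem_of_zero_mem hB h0 h, h⟩⟩
  · rw [Finset.card_eq_zero, Finset.filter_eq_empty_iff]
    intro x hx hxH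
    exact h0 (zero_mem_of_mem hB hx hxH)

end Pool.Agent.Lib_MP_6575fe_co
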