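import Mathlib
import Pool.Agent.Lib_MP_6575fe_co.Orbit

namespace Pool.Agent.Lib_MP_6575fe_co

open Finset

set_option linter.unusedSectionVars false

variable {F : Type*} [Field F] [Fintype F]

/-- An injective self-map of a finite set is onto. -/
theorem surj_of_maps (B : Finset F) (f : F → F) (hf : Function.Injective f)
    (h : ∀ x ∈ B, f x ∈ B) : ∀ y ∈ B, ∃ x ∈ B, f x = y := by
  classical
  have h1 : B.image f ⊆ B := by
    intro y hy
    obtain ⟨x, hx, rfl⟩ := Finset.mem_image.1 hy
    exact h x hx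
  have h2 : (B.image f).card = B.card := Finset.card_image_of_injective _ hf
  have h3 := Finset.eq_of_subset_of_card_le h1 h2.ge
  intro y hy
  rw [← h3] at hy
  obtain ⟨x, hx, hxy⟩ := Finset.mem_image.1 hy
  exact ⟨x, hx, hxy⟩

/-- Translations preserving `B`. -/
def transStab (B : Finset F) : AddSubgroup F where
  carrier := {t | ∀ x ∈ B, x + t ∈ B}
  zero_mem' := by intro x hx; simp [hx]
  add_mem' := by
    intro a b ha hb x hx
    rw [← add_assoc]
    exact hb _ (ha x hx)
  neg_mem' := by
    intro a ha x hx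
    obtain ⟨y, hy, hyx⟩ := surj_of_maps B (fun z => z + a) (add_left_injective a) ha x hx
    have : x + -a = y := by rw [← hyx]; ring
    rw [this]; exact hy

theorem mem_transStab {B : Finset F} {t : F} : t ∈ transStab B ↔ ∀ x ∈ B, x + t ∈ B := Iff.rfl

theorem le_transStab {d : ℕ} {H : AddSubgroup F} {B : Finset F} (hB : IsInv d H B) :
    H ≤ transStab B := by
  intro h hh x hx
  have := hB 1 (one_pow _) h hh x hx
  simpa using this

theorem transStab_muStable {d : ℕ} (hd : 0 < d) {H : AddSubgroup F} {B : Finset F}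
    (hB : IsInv d H B) : MuStable d (transStab B) := by
  intro u hu t ht x hx
  have hu0 := ne_zero_of_pow hd hu
  have h1 := hB _ (inv_pow_one hu) 0 H.zero_mem x hx
  have h2 := ht _ h1
  have h3 := hB u hu 0 H.zero_mem _ h2
  have e : u * (u⁻¹ * x + 0 + t) + 0 = x + u * t := by field_simp; ring
  rwa [e] at h3

/-- The subring generated by the `d`-th roots of unity. -/
def cyc (F : Type*) [Field F] (d : ℕ) : Subring F := Subring.closure {u : F | u ^ d = 1}

theorem cyc_stable {d : ℕ} {H : AddSubgroup F} (hH : MuStable d H) {e : F} (he : e ∈ cyc F d) :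
    ∀ h ∈ H, e * h ∈ H := by
  unfold cyc at he
  induction he using Subring.closure_induction with
  | mem x hx => exact hH x hx
  | zero => intro h _; simpa using H.zero_mem
  | one => intro h hh; simpa using hh
  | add x y _ _ hx hy => intro h hh; rw [add_mul]; exact H.add_mem (hx h hh) (hy h hh)
  | neg x _ hx => intro h hh; rw [neg_mul]; exact H.neg_mem (hx h hh)
  | mul x y _ _ hx hy => intro h hh; rw [mul_assoc]; exact hx _ (hy h hh)

theorem card_cyc_ge {d : ℕ} (hdq : d ∣ Nat.card F - 1) : d + 1 ≤ Nat.card (cyc F d) := by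
  classical
  have h1 : (insert 0 (univ.filter (fun u : F => u ^ d = 1))).card = d + 1 := by
    rw [Finset.card_insert_of_notMem, card_mu hdq]
    rw [Finset.mem_filter]
    rintro ⟨_, h⟩
    exact ne_zero_of_pow (d_pos hdq) h rfl
  rw [← h1, Nat.card_eq_fintype_card, Fintype.card_subtype]
  apply Finset.card_le_card
  intro x hx
  rw [Finset.mem_insert, Finset.mem_filter] at hx
  rw [Finset.mem_filter]
  refine ⟨Finset.mem_univ _, ?_⟩
  rcases hx with rfl | hx
  · exact Subring.zero_mem _
  · exact Subring.subset_closure hx.2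

/-- `H + E t`. -/
def adj (d : ℕ) (H : AddSubgroup F) (t : F) : AddSubgroup F where
  carrier := {x | ∃ h ∈ H, ∃ e ∈ cyc F d, x = h + e * t}
  zero_mem' := ⟨0, H.zero_mem, 0, Subring.zero_mem _, by simp⟩
  add_mem' := by
    rintro a b ⟨h, hh, e, he, rfl⟩ ⟨h', hh', e', he', rfl⟩
    exact ⟨h + h', H.add_mem hh hh', e + e', Subring.add_mem _ he he', by ring⟩
  neg_mem' := by
    rintro a ⟨h, hh, e, he, rfl⟩
    exact ⟨-h, H.neg_mem hh, -e, Subring.neg_mem _ he, by ring⟩

theorem mem_adj {d : ℕ} {H : AddSubgroup F} {t x : F} :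
    x ∈ adj d H t ↔ ∃ h ∈ H, ∃ e ∈ cyc F d, x = h + e * t := Iff.rfl

theorem adj_muStable {d : ℕ} {H : AddSubgroup F} (hH : MuStable d H) (t : F) :
    MuStable d (adj d H t) := by
  rintro u hu x ⟨h, hh, e, he, rfl⟩
  exact ⟨u * h, hH u hu h hh, u * e, Subring.mul_mem _ (Subring.subset_closure hu) he, by ring⟩

theorem card_adj {d : ℕ} {H : AddSubgroup F} (hH : MuStable d H) {t : F} (ht : t ∉ H) :
    Nat.card (adj d H t) = Nat.card H * Nat.card (cyc F d) := by
  rw [← Nat.card_prod]
  symm
  apply Nat.card_congr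
  refine Equiv.ofBijective (fun p : H × cyc F d => (⟨p.1 + p.2 * t, p.1, p.1.2, p.2, p.2.2, rfl⟩ : adj d H t)) ⟨?_, ?_⟩
  · rintro ⟨h, e⟩ ⟨h', e'⟩ heq
    have heq' : (h : F) + e * t = h' + e' * t := congrArg Subtype.val heq
    have hee : (e : F) = e' := by
      by_contra hne
      apply ht
      refine mem_of_mul_mem H ((e : F) - e') (sub_ne_zero.2 hne)
        (cyc_stable hH (Subring.sub_mem _ e.2 e'.2)) t ?_
      have : ((e : F) - e') * t = h' - h := by linear_combination heq'
      rw [this]
      exact H.sub_mem h'.2 h.2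
    have hhh : (h : F) = h' := by rw [hee] at heq'; exact add_right_cancel heq'
    exact Prod.ext (Subtype.ext hhh) (Subtype.ext hee)
  · rintro ⟨x, h, hh, e, he, rfl⟩
    exact ⟨(⟨h, hh⟩, ⟨e, he⟩), rfl⟩

theorem isInv_adj {d : ℕ} (hd : 0 < d) {H : AddSubgroup F} {B : Finset F}
    (hB : IsInv d H B) {t : F} (ht : t ∈ transStab B) : IsInv d (adj d H t) B := by
  rintro u hu s ⟨h, hh, e, he, rfl⟩ x hx
  have h1 := hB u hu h hh x hx
  have h2 := cyc_stable (transStab_muStable hd hB) he t ht
  have h3 := h2 _ h1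
  rwa [← add_assoc]

theorem adj_le {d : ℕ} (hd : 0 < d) {H : AddSubgroup F} {B : Finset F}
    (hB : IsInv d H B) {t : F} (ht : t ∈ transStab B) : adj d H t ≤ transStab B := by
  rintro x ⟨h, hh, e, he, rfl⟩
  exact (transStab B).add_mem (le_transStab hB hh) (cyc_stable (transStab_muStable hd hB) he t ht)

/-- The family of invariant sets of size `k`, with prescribed membership of `0`. -/
noncomputable def fam (d : ℕ) (H : AddSubgroup F) (e : Bool) (k : ℕ) : Finset (Finset F) := by
  classical
  exact univ.filter (fun B => IsInv d H B ∧ ((0 : F) ∈ B ↔ e = true) ∧ B.card = k)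

theorem mem_fam {d : ℕ} {H : AddSubgroup F} {e : Bool} {k : ℕ} {B : Finset F} :
    B ∈ fam d H e k ↔ IsInv d H B ∧ ((0 : F) ∈ B ↔ e = true) ∧ B.card = k := by
  classical
  simp [fam]

theorem card_fam {d : ℕ} (hdq : d ∣ Nat.card F - 1) (H : AddSubgroup F)
    (hH : MuStable d H) (e : Bool) (i : ℕ) :
    (fam d H e (e.toNat * Nat.card H + d * Nat.card H * i)).card
      = ((Nat.card F - Nat.card H) / (d * Nat.card H)).choose i := by
  classical
  cases e with
  | false =>
    rw [← card_inv_false hdq H hH i]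
    congr 1
    ext B
    rw [mem_fam]
    simp
  | true =>
    rw [← card_inv_true hdq H hH i]
    congr 1
    ext B
    rw [mem_fam]
    simp

theorem fam_form {d : ℕ} (hdq : d ∣ Nat.card F - 1) (H : AddSubgroup F)
    (hH : MuStable d H) (e : Bool) (k : ℕ) {B : Finset F} (hB : B ∈ fam d H e k) :
    ∃ i, k = e.toNat * Nat.card H + d * Nat.card H * i := by
  classical
  rw [mem_fam] at hB
  obtain ⟨i, hi⟩ := card_form hdq H hH B hB.1
  refine ⟨i, ?_⟩
  rw [← hB.2.2, hi]
  congr 1
  cases e with
  | false => rw [if_neg (fun h => by simpa using hB.2.1.1 h)]; simp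
  | true => rw [if_pos (hB.2.1.2 rfl)]; simp

theorem card_eq_form {d : ℕ} (hdq : d ∣ Nat.card F - 1) (H : AddSubgroup F)
    (hH : MuStable d H) :
    Nat.card F = Nat.card H + d * Nat.card H * ((Nat.card F - Nat.card H) / (d * Nat.card H)) := by
  classical
  obtain ⟨i, hi⟩ := card_form hdq H hH (univ : Finset F) (fun _ _ _ _ _ _ => Finset.mem_univ _)
  rw [if_pos (Finset.mem_univ _), Finset.card_univ, ← Nat.card_eq_fintype_card] at hi
  have hm : 0 < d * Nat.card H := Nat.mul_pos (d_pos hdq) Nat.card_pos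
  have : (Nat.card F - Nat.card H) / (d * Nat.card H) = i := by
    rw [hi, Nat.add_sub_cancel_left, Nat.mul_div_cancel_left _ hm]
  rw [this]; exact hi

open scoped Classical in
/-- Double counting bound for sets with an extra translation. -/
theorem card_bad2 {d : ℕ} (hdq : d ∣ Nat.card F - 1) (H : AddSubgroup F)
    (hH : MuStable d H) (𝓕 : Finset (Finset F)) (h𝓕 : ∀ B ∈ 𝓕, IsInv d H B) (N : ℕ)
    (hN : ∀ t, t ∉ H → (𝓕.filter (fun B => t ∈ transStab B)).card ≤ N) :
    (𝓕.filter (fun B => ∃ t, t ∉ H ∧ t ∈ transStab B)).card *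
      ((Nat.card (cyc F d) - 1) * Nat.card H) ≤ (Nat.card F - Nat.card H) * N := by
  have hd := d_pos hdq
  set Bad := 𝓕.filter (fun B => ∃ t, t ∉ H ∧ t ∈ transStab B) with hBad
  have h1 : ∀ B ∈ Bad, (Nat.card (cyc F d) - 1) * Nat.card H ≤
      ((univ.filter (fun t : F => t ∉ H)).filter (fun t => t ∈ transStab B)).card := by
    intro B hB
    rw [hBad, Finset.mem_filter] at hB
    obtain ⟨hB1, t, htH, htB⟩ := hB
    have hBi := h𝓕 B hB1
    have c1 : (univ.filter (fun x : F => x ∈ adj d H t)).card = Nat.card H * Nat.card (cyc F d) := by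
      rw [← card_adj hH htH, Nat.card_eq_fintype_card (α := adj d H t), Fintype.card_subtype]
    have c2 : (univ.filter (fun x : F => x ∈ H)).card = Nat.card H := by
      rw [Nat.card_eq_fintype_card, Fintype.card_subtype]
    have c3 : (univ.filter (fun x : F => x ∈ H)) ⊆ (univ.filter (fun x : F => x ∈ adj d H t)) := by
      intro x hx
      rw [Finset.mem_filter] at hx ⊢
      exact ⟨Finset.mem_univ _, x, hx.2, 0, Subring.zero_mem _, by simp⟩
    have c4 : (univ.filter (fun x : F => x ∈ adj d H t)) \ (univ.filter (fun x : F => x ∈ H)) ⊆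
        ((univ.filter (fun t : F => t ∉ H)).filter (fun t => t ∈ transStab B)) := by
      intro x hx
      simp only [Finset.mem_sdiff, Finset.mem_filter, Finset.mem_univ, true_and] at hx ⊢
      exact ⟨hx.2, adj_le hd hBi htB hx.1⟩
    refine le_trans (le_of_eq ?_) (Finset.card_le_card c4)
    rw [Finset.card_sdiff_of_subset c3, c1, c2, Nat.sub_mul, one_mul, mul_comm]
  calc Bad.card * ((Nat.card (cyc F d) - 1) * Nat.card H)
      = ∑ B ∈ Bad, (Nat.card (cyc F d) - 1) * Nat.card H := by rw [Finset.sum_const, smul_eq_mul]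
    _ ≤ ∑ B ∈ Bad, ((univ.filter (fun t : F => t ∉ H)).filter (fun t => t ∈ transStab B)).card :=
        Finset.sum_le_sum h1
    _ = ∑ t ∈ univ.filter (fun t : F => t ∉ H), (Bad.filter (fun B => t ∈ transStab B)).card := by
        simp only [Finset.card_filter]
        exact Finset.sum_comm
    _ ≤ ∑ t ∈ univ.filter (fun t : F => t ∉ H), N := by
        apply Finset.sum_le_sum
        intro t ht
        rw [Finset.mem_filter] at ht
        refine le_trans (Finset.card_le_card ?_) (hN t ht.2)
        apply Finset.filter_subset_filter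
        exact Finset.filter_subset _ _
    _ = (Nat.card F - Nat.card H) * N := by rw [Finset.sum_const, smul_eq_mul, card_compl]

end Pool.Agent.Lib_MP_6575fe_co
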