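import Mathlib
import Pool.Agent.Lib_MP_6575fe_co.Trans

namespace Pool.Agent.Lib_MP_6575fe_co

open Finset

set_option linter.unusedSectionVars false

variable {F : Type*} [Field F] [Fintype F]

/-- Units preserving both `H` and `B`. -/
def multStab (H : AddSubgroup F) (B : Finset F) : Subgroup Fˣ where
  carrier := {x | (∀ h ∈ H, (x : F) * h ∈ H) ∧ (∀ b ∈ B, (x : F) * b ∈ B)}
  one_mem' := by constructor <;> intro x hx <;> simpa using hx
  mul_mem' := by
    rintro a b ⟨ha, ha'⟩ ⟨hb, hb'⟩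
    constructor
    · intro h hh; rw [Units.val_mul, mul_assoc]; exact ha _ (hb h hh)
    · intro h hh; rw [Units.val_mul, mul_assoc]; exact ha' _ (hb' h hh)
  inv_mem' := by
    rintro a ⟨ha, ha'⟩
    constructor
    · intro h hh
      apply mem_of_mul_mem H (a : F) a.ne_zero ha
      rw [← mul_assoc, Units.mul_inv, one_mul]
      exact hh
    · intro b hb
      obtain ⟨y, hy, hyb⟩ := surj_of_maps B (fun z => (a : F) * z)
        (mul_right_injective₀ a.ne_zero) ha' b hb
      rw [← hyb]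
      show ((a⁻¹ : Fˣ) : F) * ((a : F) * y) ∈ B
      rw [← mul_assoc, Units.inv_mul, one_mul]
      exact hy

theorem mem_multStab {H : AddSubgroup F} {B : Finset F} {x : Fˣ} :
    x ∈ multStab H B ↔ (∀ h ∈ H, (x : F) * h ∈ H) ∧ (∀ b ∈ B, (x : F) * b ∈ B) := Iff.rfl

theorem card_units_eq : Nat.card Fˣ = Nat.card F - 1 := by
  classical
  rw [Nat.card_eq_fintype_card, Nat.card_eq_fintype_card, Fintype.card_units]

theorem mem_of_pow_card (G : Subgroup Fˣ) (x : Fˣ) (hx : (x : F) ^ Nat.card G = 1) : x ∈ G := by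
  classical
  have hn : Nat.card G ∣ Nat.card F - 1 := by
    rw [← card_units_eq]; exact Subgroup.card_subgroup_dvd_card G
  have h1 : (univ.filter (fun y : Fˣ => y ∈ G)).image (fun y : Fˣ => (y : F)) ⊆
      univ.filter (fun y : F => y ^ Nat.card G = 1) := by
    intro y hy
    obtain ⟨z, hz, rfl⟩ := Finset.mem_image.1 hy
    rw [Finset.mem_filter] at hz ⊢
    refine ⟨Finset.mem_univ _, ?_⟩
    have : (⟨z, hz.2⟩ : G) ^ Nat.card G = 1 := pow_card_eq_one'
    have h2 : z ^ Nat.card G = 1 := congrArg Subtype.val this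
    rw [← Units.val_pow_eq_pow_val, h2, Units.val_one]
  have h2 : ((univ.filter (fun y : Fˣ => y ∈ G)).image (fun y : Fˣ => (y : F))).card = Nat.card G := by
    rw [Finset.card_image_of_injective _ Units.val_injective, Nat.card_eq_fintype_card,
      Fintype.card_subtype]
  have h3 := Finset.eq_of_subset_of_card_le h1 (by rw [h2, card_mu hn])
  have h4 : (x : F) ∈ univ.filter (fun y : F => y ^ Nat.card G = 1) := by
    rw [Finset.mem_filter]; exact ⟨Finset.mem_univ _, hx⟩
  rw [← h3] at h4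
  obtain ⟨z, hz, hzx⟩ := Finset.mem_image.1 h4
  rw [Finset.mem_filter] at hz
  rw [← Units.val_injective hzx]
  exact hz.2

theorem exists_prime_mul {d : ℕ} (hdq : d ∣ Nat.card F - 1) {H : AddSubgroup F}
    (hH : MuStable d H) {B : Finset F} (hB : IsInv d H B) {u : F} (hu0 : u ≠ 0)
    (hud : u ^ d ≠ 1) (huH : ∀ h ∈ H, u * h ∈ H) (huB : ∀ x ∈ B, u * x ∈ B) :
    ∃ l : ℕ, l.Prime ∧ d * l ∣ Nat.card F - 1 ∧ MuStable (d * l) H ∧ IsInv (d * l) H B := by
  classical
  set G := multStab H B with hG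
  set n := Nat.card G with hn
  have hnpos : 0 < n := Nat.card_pos
  have hnq : n ∣ Nat.card F - 1 := by
    rw [← card_units_eq]; exact Subgroup.card_subgroup_dvd_card G
  have hmem : ∀ x : F, x ^ n = 1 → (∀ h ∈ H, x * h ∈ H) ∧ (∀ b ∈ B, x * b ∈ B) := by
    intro x hx
    have hx0 : x ≠ 0 := ne_zero_of_pow hnpos hx
    have : Units.mk0 x hx0 ∈ G := mem_of_pow_card G _ (by rw [Units.val_mk0]; exact hx)
    have h2 := mem_multStab.1 this
    simpa using h2
  have hdn : d ∣ n := by
    obtain ⟨ζ, hζ⟩ := exists_prim hdq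
    have hζ1 : ζ ^ d = 1 := hζ.pow_eq_one
    have hζ0 : ζ ≠ 0 := ne_zero_of_pow (d_pos hdq) hζ1
    have hm : Units.mk0 ζ hζ0 ∈ G := by
      rw [hG, mem_multStab]
      constructor
      · intro h hh; exact hH ζ hζ1 h hh
      · intro b hb
        have := hB ζ hζ1 0 H.zero_mem b hb
        simpa using this
    have h1 : orderOf (⟨Units.mk0 ζ hζ0, hm⟩ : G) ∣ n := orderOf_dvd_natCard _
    rw [Subgroup.orderOf_mk, ← orderOf_units, Units.val_mk0, ← hζ.eq_orderOf] at h1
    exact h1
  have hun : u ^ n = 1 := by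
    have hm : Units.mk0 u hu0 ∈ G := by
      rw [hG, mem_multStab]; exact ⟨huH, huB⟩
    have : (⟨Units.mk0 u hu0, hm⟩ : G) ^ n = 1 := pow_card_eq_one'
    have h2 : (Units.mk0 u hu0) ^ n = 1 := congrArg Subtype.val this
    have h3 := congrArg Units.val h2
    simpa using h3
  obtain ⟨m, hm⟩ := hdn
  have hm1 : m ≠ 1 := by
    rintro rfl
    rw [mul_one] at hm
    rw [hm] at hun
    exact hud hun
  obtain ⟨l, hl, hlm⟩ := Nat.exists_prime_and_dvd hm1
  have hdl : d * l ∣ n := by rw [hm]; exact Nat.mul_dvd_mul_left d hlm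
  refine ⟨l, hl, hdl.trans hnq, ?_, ?_⟩
  · intro x hx
    have : x ^ n = 1 := by
      obtain ⟨c, hc⟩ := hdl
      rw [hc, pow_mul, hx, one_pow]
    exact (hmem x this).1
  · intro x hx h hh b hb
    have : x ^ n = 1 := by
      obtain ⟨c, hc⟩ := hdl
      rw [hc, pow_mul, hx, one_pow]
    have h1 := (hmem x this).2 b hb
    exact le_transStab hB hh _ h1

/-- The stabilizer of `B` in `AGL(1,F)` is exactly `{x ↦ u x + h : u ^ d = 1, h ∈ H}`. -/
def Exact (d : ℕ) (H : AddSubgroup F) (B : Finset F) : Prop :=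
  ∀ a b : F, a ≠ 0 → ((fun x => a * x + b) '' (B : Set F) = (B : Set F) ↔ a ^ d = 1 ∧ b ∈ H)

theorem exact_of {d : ℕ} {H : AddSubgroup F}
    {B : Finset F} (hB : IsInv d H B) (h1 : ∀ t, t ∈ transStab B → t ∈ H)
    (h2 : ∀ u c : F, u ≠ 0 → u ^ d ≠ 1 → (∀ h ∈ H, u * h ∈ H) →
      ¬ (∀ x ∈ B, u * (x - c) + c ∈ B)) : Exact d H B := by
  classical
  intro a b ha
  constructor
  · intro himg
    have hmap : ∀ x ∈ B, a * x + b ∈ B := by
      intro x hx
      have : a * x + b ∈ (fun x => a * x + b) '' (B : Set F) := ⟨x, hx, rfl⟩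
      rw [himg] at this
      exact this
    have hinj : Function.Injective (fun x : F => a * x + b) := by
      intro x y hxy
      exact mul_left_cancel₀ ha (add_right_cancel hxy)
    have hsurj := surj_of_maps B (fun x => a * x + b) hinj hmap
    have haH : ∀ h ∈ H, a * h ∈ H := by
      intro h hh
      apply h1
      intro x hx
      obtain ⟨y, hy, hyx⟩ := hsurj x hx
      have h3 := hmap _ (le_transStab hB hh y hy)
      have e : a * (y + h) + b = x + a * h := by rw [← hyx]; ring
      rwa [e] at h3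
    have had : a ^ d = 1 := by
      by_contra hne
      have ha1 : a ≠ 1 := by rintro rfl; exact hne (one_pow _)
      apply h2 a (b / (1 - a)) ha hne haH
      intro x hx
      have h3 := hmap x hx
      have h4 : (1 - a) ≠ 0 := sub_ne_zero.2 (Ne.symm ha1)
      have e : a * (x - b / (1 - a)) + b / (1 - a) = a * x + b := by
        field_simp
        ring
      rwa [e]
    refine ⟨had, ?_⟩
    apply h1
    intro x hx
    have h3 := hB _ (inv_pow_one had) 0 H.zero_mem x hx
    have h4 := hmap _ h3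
    have e : a * (a⁻¹ * x + 0) + b = x + b := by field_simp; ring
    rwa [e] at h4
  · rintro ⟨had, hb⟩
    have hmap : ∀ x ∈ B, a * x + b ∈ B := fun x hx => hB a had b hb x hx
    have hinj : Function.Injective (fun x : F => a * x + b) := by
      intro x y hxy
      exact mul_left_cancel₀ ha (add_right_cancel hxy)
    have hsurj := surj_of_maps B (fun x => a * x + b) hinj hmap
    ext y
    constructor
    · rintro ⟨x, hx, rfl⟩; exact hmap x hx
    · intro hy
      obtain ⟨x, hx, hxy⟩ := hsurj y hy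
      exact ⟨x, hx, hxy⟩

/-- For `d ≥ 2` the centre must be `0`. -/
theorem no_center {d : ℕ} (hd2 : 2 ≤ d) (hdq : d ∣ Nat.card F - 1) {H : AddSubgroup F}
    (hH : MuStable d H) {B : Finset F} (hB : IsInv d H B) (h1 : ∀ t, t ∈ transStab B → t ∈ H)
    {u c : F} (hu0 : u ≠ 0) (huc : ∀ x ∈ B, u * (x - c) + c ∈ B) :
    ∀ x ∈ B, u * x ∈ B := by
  obtain ⟨ζ, hζ⟩ := exists_prim hdq
  have hζ1 : ζ ^ d = 1 := hζ.pow_eq_one
  have hζ0 : ζ ≠ 0 := ne_zero_of_pow (by omega) hζ1
  have hζne : ζ ≠ 1 := hζ.ne_one (by omega)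
  set b := c - u * c with hb
  have hmap : ∀ x ∈ B, u * x + b ∈ B := by
    intro x hx
    have := huc x hx
    have e : u * (x - c) + c = u * x + b := by rw [hb]; ring
    rwa [e] at this
  have hinj : Function.Injective (fun x : F => u * x + b) := by
    intro x y hxy
    exact mul_left_cancel₀ hu0 (add_right_cancel hxy)
  have hsurj := surj_of_maps B (fun x => u * x + b) hinj hmap
  have hbH : b ∈ H := by
    apply mem_of_mul_mem H (1 - ζ) (sub_ne_zero.2 (Ne.symm hζne))
      (sub_stable hH (one_pow _) hζ1)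
    apply h1
    intro x hx
    have h3 := hB _ (inv_pow_one hζ1) 0 H.zero_mem x hx
    obtain ⟨y, hy, hyx⟩ := hsurj _ h3
    have h4 := hB ζ hζ1 0 H.zero_mem y hy
    have h5 := hmap _ h4
    have h6 : u * y + b = ζ⁻¹ * x + 0 := hyx
    have h7 : ζ * (u * y + b) = x := by rw [h6]; field_simp; ring
    have e : u * (ζ * y + 0) + b = x + (1 - ζ) * b := by rw [← h7]; ring
    rwa [e] at h5
  intro x hx
  have h3 := hmap x hx
  have h4 := le_transStab hB (H.neg_mem hbH) _ h3
  have e : u * x + b + -b = u * x := by ring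
  rwa [e] at h4

end Pool.Agent.Lib_MP_6575fe_co
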