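import Mathlib
import Pool.Agent.Lib_MP_6575fe_co.Mult
import Pool.Agent.Lib_MP_6575fe_co.Ineq

namespace Pool.Agent.Lib_MP_6575fe_co

open Finset

set_option linter.unusedSectionVars false

variable {F : Type*} [Field F] [Fintype F]

theorem bad_cases {d : ℕ} (hd2 : 2 ≤ d) (hdq : d ∣ Nat.card F - 1) {H : AddSubgroup F}
    (hH : MuStable d H) {e : Bool} {j : ℕ} {B : Finset F}
    (hB : B ∈ fam d H e (e.toNat * Nat.card H + d * Nat.card H * j)) (hne : ¬ Exact d H B) :
    (∃ t, t ∉ H ∧ t ∈ transStab B) ∨
    (∃ l : ℕ, l.Prime ∧ l ∣ j ∧ d * l ∣ Nat.card F - 1 ∧ MuStable (d * l) H ∧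
      IsInv (d * l) H B) := by
  have hB' := mem_fam.1 hB
  by_contra hcon
  push Not at hcon
  obtain ⟨hc1, hc2⟩ := hcon
  apply hne
  have h1 : ∀ t, t ∈ transStab B → t ∈ H := by
    intro t ht
    by_contra htH
    exact hc1 t htH ht
  apply exact_of hB'.1 h1
  intro u c hu0 hud huH huB
  have huB' := no_center hd2 hdq hH hB'.1 h1 hu0 huB
  obtain ⟨l, hl, hdl, hHl, hBl⟩ := exists_prime_mul hdq hH hB'.1 hu0 hud huH huB'
  refine hc2 l hl ?_ hdl hHl hBl
  have hBfam : B ∈ fam (d * l) H e (e.toNat * Nat.card H + d * Nat.card H * j) := by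
    rw [mem_fam]; exact ⟨hBl, hB'.2.1, hB'.2.2⟩
  obtain ⟨i, hi⟩ := fam_form hdl H hHl e _ hBfam
  have h3 : d * Nat.card H * j = d * l * Nat.card H * i := by omega
  have hpos : 0 < d * Nat.card H := Nat.mul_pos (by omega) Nat.card_pos
  refine ⟨i, Nat.eq_of_mul_eq_mul_left hpos ?_⟩
  rw [h3]; ring

/-- Shape of the sizes of sets with an additional translation. -/
theorem trans_form {d : ℕ} (hdq : d ∣ Nat.card F - 1) {H : AddSubgroup F}
    (hH : MuStable d H) {e : Bool} {j : ℕ} {B : Finset F}
    (hB : B ∈ fam d H e (e.toNat * Nat.card H + d * Nat.card H * j)) {t : F} (ht : t ∉ H)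
    (htB : t ∈ transStab B) :
    B ∈ fam d (adj d H t) e (e.toNat * Nat.card H + d * Nat.card H * j) ∧
    ∃ i, e.toNat + d * j = Nat.card (cyc F d) * (e.toNat + d * i) := by
  have hB' := mem_fam.1 hB
  have h1 : B ∈ fam d (adj d H t) e (e.toNat * Nat.card H + d * Nat.card H * j) := by
    rw [mem_fam]
    exact ⟨isInv_adj (d_pos hdq) hB'.1 htB, hB'.2.1, hB'.2.2⟩
  refine ⟨h1, ?_⟩
  obtain ⟨i, hi⟩ := fam_form hdq _ (adj_muStable hH t) e _ h1
  refine ⟨i, ?_⟩
  rw [card_adj hH ht] at hi
  have hpos : 0 < Nat.card H := Nat.card_pos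
  apply Nat.eq_of_mul_eq_mul_left hpos
  calc Nat.card H * (e.toNat + d * j) = e.toNat * Nat.card H + d * Nat.card H * j := by ring
    _ = _ := hi
    _ = _ := by ring

theorem two_j_le {d : ℕ} (hd2 : 2 ≤ d) (hdq : d ∣ Nat.card F - 1) {H : AddSubgroup F}
    (hH : MuStable d H) {e j : ℕ}
    (hk : 2 * (e * Nat.card H + d * Nat.card H * j) ≤ Nat.card F) :
    2 * j ≤ (Nat.card F - Nat.card H) / (d * Nat.card H) := by
  set M := (Nat.card F - Nat.card H) / (d * Nat.card H) with hM
  have hq := card_eq_form hdq H hH
  rw [← hM] at hq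
  have hpos : 0 < Nat.card H := Nat.card_pos
  by_contra hcon
  push Not at hcon
  have h1 : M + 1 ≤ 2 * j := hcon
  have h2 : d * Nat.card H * (M + 1) ≤ d * Nat.card H * (2 * j) := Nat.mul_le_mul_left _ h1
  have h3 : 2 * Nat.card H ≤ d * Nat.card H := Nat.mul_le_mul_right _ hd2
  rw [hq] at hk
  nlinarith

theorem pos_ge2 {d : ℕ} (hd2 : 2 ≤ d) (hdq : d ∣ Nat.card F - 1) (H : AddSubgroup F)
    (hH : MuStable d H) (e : Bool) (j : ℕ) (hj : 2 ≤ j)
    (hk : 2 * (e.toNat * Nat.card H + d * Nat.card H * j) ≤ Nat.card F) :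
    ∃ B ∈ fam d H e (e.toNat * Nat.card H + d * Nat.card H * j), Exact d H B := by
  classical
  by_contra hcon
  push Not at hcon
  set k := e.toNat * Nat.card H + d * Nat.card H * j with hkdef
  set M := (Nat.card F - Nat.card H) / (d * Nat.card H) with hM
  have hMj : 2 * j ≤ M := two_j_le hd2 hdq hH hk
  have hhpos : 0 < Nat.card H := Nat.card_pos
  have hq : Nat.card F = Nat.card H + d * Nat.card H * M := card_eq_form hdq H hH
  set w := Nat.card (cyc F d) with hw
  have hwd : d + 1 ≤ w := card_cyc_ge hdq
  set 𝓕 := fam d H e k with h𝓕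
  have hcard : 𝓕.card = M.choose j := card_fam hdq H hH e j
  set Bad2 := 𝓕.filter (fun B => ∃ t, t ∉ H ∧ t ∈ transStab B) with hBad2
  let S : ℕ → Finset (Finset F) := fun l =>
    if d * l ∣ Nat.card F - 1 ∧ MuStable (d * l) H ∧ l ∣ j then fam (d * l) H e k else ∅
  have hcover : 𝓕 ⊆ Bad2 ∪ j.primeFactors.biUnion S := by
    intro B hB
    rcases bad_cases hd2 hdq hH hB (hcon B hB) with h | ⟨l, hl, hlj, hdl, hHl, hBl⟩
    · exact Finset.mem_union_left _ (Finset.mem_filter.2 ⟨hB, h⟩)
    · apply Finset.mem_union_right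
      rw [Finset.mem_biUnion]
      refine ⟨l, Nat.mem_primeFactors.2 ⟨hl, hlj, by omega⟩, ?_⟩
      simp only [S]
      rw [if_pos ⟨hdl, hHl, hlj⟩, mem_fam]
      have hB' := mem_fam.1 hB
      exact ⟨hBl, hB'.2.1, hB'.2.2⟩
  have hS : ∀ l ∈ j.primeFactors, (S l).card ≤ (M / l).choose (j / l) := by
    intro l hl
    simp only [S]
    split_ifs with hc
    · obtain ⟨h1, h2, h3⟩ := hc
      obtain ⟨i, hi⟩ := h3
      have hl0 : 0 < l := (Nat.prime_of_mem_primeFactors hl).pos
      have e1 : k = e.toNat * Nat.card H + d * l * Nat.card H * i := by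
        rw [hkdef, hi]; ring
      rw [e1, card_fam h1 H h2 e i]
      have e2 : (Nat.card F - Nat.card H) / (d * l * Nat.card H) = M / l := by
        rw [hM, Nat.div_div_eq_div_mul]
        congr 1; ring
      rw [e2, hi, Nat.mul_div_cancel_left _ hl0]
    · simp
  have hbound : M.choose j ≤ Bad2.card + ∑ l ∈ j.primeFactors, (M / l).choose (j / l) := by
    rw [← hcard]
    refine (Finset.card_le_card hcover).trans ((Finset.card_union_le _ _).trans ?_)
    apply Nat.add_le_add_left
    exact Finset.card_biUnion_le.trans (Finset.sum_le_sum hS)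
  -- bound for Bad2
  have hB2 : Bad2.card = 0 ∨ (Bad2.card * j ≤ M) ∨
      (3 ≤ j ∧ Bad2.card ≤ M * (M / 3).choose (j / 3)) := by
    by_cases hex : ∃ i, e.toNat + d * j = w * (e.toNat + d * i)
    · right
      obtain ⟨i, hi⟩ := hex
      have hN : ∀ t, t ∉ H → (𝓕.filter (fun B => t ∈ transStab B)).card ≤
          ((Nat.card F - Nat.card H * w) / (d * (Nat.card H * w))).choose i := by
        intro t ht
        have e1 : k = e.toNat * Nat.card (adj d H t) + d * Nat.card (adj d H t) * i := by
          rw [card_adj hH ht, ← hw, hkdef]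
          calc e.toNat * Nat.card H + d * Nat.card H * j
              = Nat.card H * (e.toNat + d * j) := by ring
            _ = Nat.card H * (w * (e.toNat + d * i)) := by rw [hi]
            _ = _ := by ring
        have e2 := card_fam hdq (adj d H t) (adj_muStable hH t) e i
        rw [← e1, card_adj hH ht, ← hw] at e2
        rw [← e2]
        apply Finset.card_le_card
        intro B hB
        rw [Finset.mem_filter] at hB
        exact (trans_form hdq hH hB.1 ht hB.2).1
      have hb := card_bad2 hdq H hH 𝓕 (fun B hB => (mem_fam.1 hB).1) _ hN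
      rw [← hBad2, ← hw] at hb
      set N := ((Nat.card F - Nat.card H * w) / (d * (Nat.card H * w))).choose i with hNdef
      have hb' : Bad2.card * (w - 1) ≤ d * M * N := by
        have e3 : Nat.card F - Nat.card H = d * Nat.card H * M := by omega
        rw [e3] at hb
        have : Nat.card H * (Bad2.card * (w - 1)) ≤ Nat.card H * (d * M * N) := by
          calc Nat.card H * (Bad2.card * (w - 1)) = Bad2.card * ((w - 1) * Nat.card H) := by ring
            _ ≤ d * Nat.card H * M * N := hb
            _ = _ := by ring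
        exact Nat.le_of_mul_le_mul_left this hhpos
      rcases Nat.eq_zero_or_pos i with h0 | hipos
      · left
        subst h0
        have hN1 : N = 1 := by rw [hNdef, Nat.choose_zero_right]
        rw [hN1, mul_one] at hb'
        have hdj : 0 < d * j := Nat.mul_pos (by omega) (by omega)
        have he1 : e.toNat = 1 := by
          cases e with
          | false => simp at hi; omega
          | true => rfl
        rw [he1] at hi
        have hw1 : w - 1 = d * j := by omega
        rw [hw1] at hb'
        have : d * (Bad2.card * j) ≤ d * M := by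
          calc d * (Bad2.card * j) = Bad2.card * (d * j) := by ring
            _ ≤ d * M := hb'
        exact Nat.le_of_mul_le_mul_left this (by omega)
      · right
        have hwi : w * i ≤ j := by
          have hw0 : e.toNat ≤ w * e.toNat := Nat.le_mul_of_pos_left _ (by omega)
          have h5 : d * (w * i) ≤ d * j := by
            have : w * (e.toNat + d * i) = w * e.toNat + d * (w * i) := by ring
            omega
          exact Nat.le_of_mul_le_mul_left h5 (by omega)
        have hw3 : 3 ≤ w := by omega
        have h3j : 3 ≤ j := le_trans (le_trans hw3 (Nat.le_mul_of_pos_right _ hipos)) hwi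
        refine ⟨h3j, ?_⟩
        have hb3 : Bad2.card ≤ M * N := by
          have : d * Bad2.card ≤ d * (M * N) := by
            calc d * Bad2.card ≤ (w - 1) * Bad2.card := Nat.mul_le_mul_right _ (by omega)
              _ = Bad2.card * (w - 1) := by ring
              _ ≤ d * M * N := hb'
              _ = d * (M * N) := by ring
          exact Nat.le_of_mul_le_mul_left this (by omega)
        refine hb3.trans (Nat.mul_le_mul_left _ ?_)
        have hA : (Nat.card F - Nat.card H * w) / (d * (Nat.card H * w)) ≤ M / 3 := by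
          calc (Nat.card F - Nat.card H * w) / (d * (Nat.card H * w))
              ≤ (Nat.card F - Nat.card H) / (d * (Nat.card H * w)) := by
                apply Nat.div_le_div_right
                have : Nat.card H ≤ Nat.card H * w := Nat.le_mul_of_pos_right _ (by omega)
                omega
            _ = M / w := by
                rw [hM, Nat.div_div_eq_div_mul]
                congr 1; ring
            _ ≤ M / 3 := Nat.div_le_div_left hw3 (by norm_num)
        have hij : i ≤ j / 3 := by
          rw [Nat.le_div_iff_mul_le (by norm_num)]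
          calc i * 3 = 3 * i := by ring
            _ ≤ w * i := Nat.mul_le_mul_right _ hw3
            _ ≤ j := hwi
        calc N ≤ (M / 3).choose i := Nat.choose_le_choose _ hA
          _ ≤ (M / 3).choose (j / 3) := choose_mid _ _ _ hij (by omega)
    · left
      rw [Finset.card_eq_zero, hBad2, Finset.filter_eq_empty_iff]
      rintro B hB ⟨t, ht, htB⟩
      exact hex (trans_form hdq hH hB ht htB).2
  -- final contradiction
  rcases Nat.lt_or_ge j 3 with hj3 | hj3
  · have hj2 : j = 2 := by omega
    subst hj2
    have hp : (2 : ℕ).primeFactors = {2} := Nat.Prime.primeFactors (by norm_num)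
    rw [hp, Finset.sum_singleton] at hbound
    have h6 : (M / 2).choose (2 / 2) = M / 2 := by norm_num
    rw [h6] at hbound
    have h7 : Bad2.card ≤ M / 2 := by
      rcases hB2 with h | h | h
      · omega
      · omega
      · omega
    have h8 : M.choose 2 ≤ M := by omega
    rw [Nat.choose_two_right] at h8
    have h9 : M * (M - 1) < 2 * (M + 1) := by
      have := Nat.div_lt_iff_lt_mul (x := M * (M - 1)) (y := M + 1) (k := 2) (by norm_num)
      rw [mul_comm (M + 1) 2] at this
      exact this.1 (by omega)
    obtain ⟨m, hm⟩ : ∃ m, M = m + 4 := ⟨M - 4, by omega⟩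
    rw [hm] at h9
    have : m + 4 - 1 = m + 3 := by omega
    rw [this] at h9
    nlinarith
  · have hineq := choose_ineq2 M j hj3 hMj
    have hCpos : 1 ≤ (M / 3).choose (j / 3) := Nat.choose_pos (by omega)
    have h7 : Bad2.card ≤ M * (M / 3).choose (j / 3) := by
      rcases hB2 with h | h | h
      · omega
      · have : Bad2.card ≤ Bad2.card * j := Nat.le_mul_of_pos_right _ (by omega)
        have h2 : M ≤ M * (M / 3).choose (j / 3) := Nat.le_mul_of_pos_right _ (by omega)
        omega
      · exact h.2
    omega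

/-- One orbit. -/
theorem pos_one_orbit {d : ℕ} (hd2 : 2 ≤ d) (hdq : d ∣ Nat.card F - 1) (H : AddSubgroup F)
    (hH : MuStable d H) (e : Bool)
    (hk : 2 * (e.toNat * Nat.card H + d * Nat.card H * 1) ≤ Nat.card F)
    (he : e = true → Nat.card (cyc F d) ≠ d + 1) :
    ∃ B ∈ fam d H e (e.toNat * Nat.card H + d * Nat.card H * 1), Exact d H B := by
  classical
  have hMj := two_j_le hd2 hdq hH hk
  set M := (Nat.card F - Nat.card H) / (d * Nat.card H) with hM
  have hcard : (fam d H e (e.toNat * Nat.card H + d * Nat.card H * 1)).card = M.choose 1 :=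
    card_fam hdq H hH e 1
  rw [Nat.choose_one_right] at hcard
  have hne : (fam d H e (e.toNat * Nat.card H + d * Nat.card H * 1)).Nonempty := by
    rw [← Finset.card_pos, hcard]; omega
  obtain ⟨B, hB⟩ := hne
  refine ⟨B, hB, ?_⟩
  by_contra hcon
  rcases bad_cases hd2 hdq hH hB hcon with ⟨t, ht, htB⟩ | ⟨l, hl, hlj, _⟩
  · obtain ⟨_, i, hi⟩ := trans_form hdq hH hB ht htB
    have hwd : d + 1 ≤ Nat.card (cyc F d) := card_cyc_ge hdq
    set w := Nat.card (cyc F d) with hw
    rcases Nat.eq_zero_or_pos i with h0 | hipos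
    · subst h0
      cases e with
      | false => simp at hi; omega
      | true => 
        simp only [Bool.toNat_true, mul_one, mul_zero, add_zero] at hi
        exact he rfl (by omega)
    · have hw0 : e.toNat ≤ w * e.toNat := Nat.le_mul_of_pos_left _ (by omega)
      have h5 : d * (w * i) ≤ d * 1 := by
        have : w * (e.toNat + d * i) = w * e.toNat + d * (w * i) := by ring
        omega
      have h6 := Nat.le_of_mul_le_mul_left h5 (by omega)
      have h7 : w ≤ w * i := Nat.le_mul_of_pos_right _ hipos
      omega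
  · exact hl.one_lt.ne' (Nat.dvd_one.1 hlj)

end Pool.Agent.Lib_MP_6575fe_co
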