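import Mathlib
import Pool.Agent.Lib_MP_6575fe_co.Pos

namespace Pool.Agent.Lib_MP_6575fe_co

open Finset

set_option linter.unusedSectionVars false

variable {F : Type*} [Field F] [Fintype F]

theorem card_cyc_one (p : ℕ) [CharP F p] : Nat.card (cyc F 1) = p := by
  have h1 : ∀ x : F, x ∈ cyc F 1 ↔ x ∈ AddSubgroup.zmultiples (1 : F) := by
    intro x
    rw [AddSubgroup.mem_zmultiples_iff]
    constructor
    · intro hx
      unfold cyc at hx
      induction hx using Subring.closure_induction with
      | mem x hx =>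
        rw [Set.mem_ofPred_eq, pow_one] at hx
        exact ⟨1, by rw [hx]; simp⟩
      | zero => exact ⟨0, by simp⟩
      | one => exact ⟨1, by simp⟩
      | add x y _ _ hx hy =>
        obtain ⟨a, rfl⟩ := hx
        obtain ⟨b, rfl⟩ := hy
        exact ⟨a + b, by simp⟩
      | neg x _ hx =>
        obtain ⟨a, rfl⟩ := hx
        exact ⟨-a, by simp⟩
      | mul x y _ _ hx hy =>
        obtain ⟨a, rfl⟩ := hx
        obtain ⟨b, rfl⟩ := hy
        exact ⟨a * b, by simp⟩
    · rintro ⟨a, rfl⟩
      exact Subring.zsmul_mem _ (Subring.one_mem _) a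
  have h2 : Nat.card (cyc F 1) = Nat.card (AddSubgroup.zmultiples (1 : F)) :=
    Nat.card_congr (Equiv.subtypeEquivRight h1)
  rw [h2, Nat.card_zmultiples]
  exact CharP.eq F (CharP.addOrderOf_one F) inferInstance

theorem muStable_one (H : AddSubgroup F) : MuStable 1 H := by
  intro u hu h hh
  rw [pow_one] at hu; subst hu; simpa using hh

/-- Invariance with centre `c`. -/
def CInv (l : ℕ) (H : AddSubgroup F) (c : F) (B : Finset F) : Prop :=
  ∀ u : F, u ^ l = 1 → ∀ h ∈ H, ∀ x ∈ B, u * (x - c) + c + h ∈ B

open scoped Classical in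
theorem cinv_iff {l : ℕ} {H : AddSubgroup F} {c : F} {B : Finset F} :
    CInv l H c B ↔ IsInv l H (B.image (fun x => x - c)) := by
  constructor
  · intro h u hu t ht y hy
    obtain ⟨x, hx, rfl⟩ := Finset.mem_image.1 hy
    exact Finset.mem_image.2 ⟨_, h u hu t ht x hx, by ring⟩
  · intro h u hu t ht x hx
    obtain ⟨y, hy, hyx⟩ := Finset.mem_image.1 (h u hu t ht (x - c)
      (Finset.mem_image.2 ⟨x, hx, rfl⟩))
    have : u * (x - c) + c + t = y := by linear_combination -hyx
    rw [this]; exact hy

theorem fam_nonempty_form {l : ℕ} (hlq : l ∣ Nat.card F - 1) (H : AddSubgroup F)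
    (hH : MuStable l H) {e : Bool} {m : ℕ} (hne : (fam l H e (Nat.card H * m)).Nonempty) :
    ∃ i, m = e.toNat + l * i := by
  obtain ⟨B, hB⟩ := hne
  obtain ⟨i, hi⟩ := fam_form hlq H hH e _ hB
  refine ⟨i, ?_⟩
  have hpos : 0 < Nat.card H := Nat.card_pos
  apply Nat.eq_of_mul_eq_mul_left hpos
  rw [hi]; ring

theorem card_fam_le {l : ℕ} (hl2 : 2 ≤ l) (hlq : l ∣ Nat.card F - 1) (H : AddSubgroup F)
    (hH : MuStable l H) (m : ℕ) :
    (fam l H false (Nat.card H * m)).card + (fam l H true (Nat.card H * m)).card ≤
      (Nat.card F / Nat.card H / l).choose (m / l) := by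
  classical
  have hpos : 0 < Nat.card H := Nat.card_pos
  have hA : (Nat.card F - Nat.card H) / (l * Nat.card H) ≤ Nat.card F / Nat.card H / l := by
    rw [Nat.div_div_eq_div_mul, mul_comm l]
    exact Nat.div_le_div_right (Nat.sub_le _ _)
  have key : ∀ e : Bool, (fam l H e (Nat.card H * m)).Nonempty →
      m % l = e.toNat ∧ (fam l H e (Nat.card H * m)).card ≤
      (Nat.card F / Nat.card H / l).choose (m / l) := by
    intro e hne
    obtain ⟨i, hi⟩ := fam_nonempty_form hlq H hH hne
    have he : e.toNat < l := lt_of_lt_of_le (Bool.toNat_lt e) hl2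
    have h1 : m % l = e.toNat := by
      rw [hi, Nat.add_mul_mod_self_left, Nat.mod_eq_of_lt he]
    have h2 : m / l = i := by
      rw [hi, Nat.add_mul_div_left _ _ (by omega), Nat.div_eq_of_lt he, zero_add]
    refine ⟨h1, ?_⟩
    have e1 : Nat.card H * m = e.toNat * Nat.card H + l * Nat.card H * i := by
      rw [hi]; ring
    rw [e1, card_fam hlq H hH e i, h2]
    exact Nat.choose_le_choose _ hA
  rcases Finset.eq_empty_or_nonempty (fam l H false (Nat.card H * m)) with h0 | h0
  · rw [h0, Finset.card_empty, zero_add]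
    rcases Finset.eq_empty_or_nonempty (fam l H true (Nat.card H * m)) with h1 | h1
    · rw [h1, Finset.card_empty]; exact Nat.zero_le _
    · exact (key true h1).2
  · rcases Finset.eq_empty_or_nonempty (fam l H true (Nat.card H * m)) with h1 | h1
    · rw [h1, Finset.card_empty, add_zero]
      exact (key false h0).2
    · have a := (key false h0).1
      have b := (key true h1).1
      rw [a] at b
      simp at b

theorem pos_one (H : AddSubgroup F) (m : ℕ) (hm : 3 ≤ m)
    (hk : 2 * (Nat.card H * m) ≤ Nat.card F) (hQ : 8 ≤ Nat.card F / Nat.card H) :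
    ∃ B : Finset F, IsInv 1 H B ∧ B.card = Nat.card H * m ∧ Exact 1 H B := by
  classical
  by_contra hcon
  push Not at hcon
  have hhpos : 0 < Nat.card H := Nat.card_pos
  have hdvd : Nat.card H ∣ Nat.card F := AddSubgroup.card_addSubgroup_dvd_card H
  set Q := Nat.card F / Nat.card H with hQdef
  have hq : Nat.card F = Nat.card H * Q := (Nat.mul_div_cancel' hdvd).symm
  have hmQ : 2 * m ≤ Q := by
    have : Nat.card H * (2 * m) ≤ Nat.card H * Q := by
      rw [← hq]; calc Nat.card H * (2 * m) = 2 * (Nat.card H * m) := by ring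
        _ ≤ _ := hk
    exact Nat.le_of_mul_le_mul_left this hhpos
  set p := ringChar F with hp
  have : CharP F p := ringChar.charP F
  have hpp : p.Prime := CharP.char_is_prime F p
  have hpq : p ∣ Nat.card F := by
    obtain ⟨n, _, hn⟩ := FiniteField.card F p
    rw [Nat.card_eq_fintype_card, hn]
    exact dvd_pow_self p n.pos.ne'
  set P := (Finset.range (m + 1)).filter Nat.Prime with hP
  set T : ℕ → ℕ := fun l => (Q / l).choose (m / l) with hT
  have hone : (1 : ℕ) ∣ Nat.card F - 1 := one_dvd _
  set 𝓕 := (univ : Finset (Finset F)).filter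
      (fun B => IsInv 1 H B ∧ B.card = Nat.card H * m) with h𝓕
  have hcard : 𝓕.card = Q.choose m := card_inv_one H m
  have hmem𝓕 : ∀ B, B ∈ 𝓕 ↔ IsInv 1 H B ∧ B.card = Nat.card H * m := by
    intro B; rw [h𝓕, Finset.mem_filter]; simp
  set Bad2 := 𝓕.filter (fun B => ∃ t, t ∉ H ∧ t ∈ transStab B) with hBad2
  let S : ℕ → Finset (Finset F) := fun l =>
    if l ∣ Nat.card F - 1 ∧ MuStable l H then 𝓕.filter (fun B => ∃ c, CInv l H c B) else ∅
  have hcover : 𝓕 ⊆ Bad2 ∪ (P.erase p).biUnion S := by
    intro B hB
    obtain ⟨hB1, hB2⟩ := (hmem𝓕 B).1 hB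
    by_cases h1 : ∃ t, t ∉ H ∧ t ∈ transStab B
    · exact Finset.mem_union_left _ (Finset.mem_filter.2 ⟨hB, h1⟩)
    apply Finset.mem_union_right
    push Not at h1
    have h1' : ∀ t, t ∈ transStab B → t ∈ H := by
      intro t ht
      by_contra htH
      exact h1 t htH ht
    have hnE := hcon B hB1 hB2
    have hex : ∃ u c : F, u ≠ 0 ∧ u ^ 1 ≠ 1 ∧ (∀ h ∈ H, u * h ∈ H) ∧
        (∀ x ∈ B, u * (x - c) + c ∈ B) := by
      by_contra hno
      push Not at hno
      apply hnE
      apply exact_of hB1 h1'
      intro u c hu0 hu1 huH huB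
      obtain ⟨x, hx, hx'⟩ := hno u c hu0 hu1 huH
      exact hx' (huB x hx)
    obtain ⟨u, c, hu0, hu1, huH, huB⟩ := hex
    set B' := B.image (fun x => x - c) with hB'
    have hB'inv : IsInv 1 H B' := by
      rw [hB', ← cinv_iff]
      intro v hv t ht x hx
      rw [pow_one] at hv
      subst hv
      have := hB1 1 (one_pow _) t ht x hx
      have e : 1 * (x - c) + c + t = 1 * x + t := by ring
      rwa [e]
    have huB' : ∀ x ∈ B', u * x ∈ B' := by
      intro y hy
      obtain ⟨x, hx, rfl⟩ := Finset.mem_image.1 hy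
      exact Finset.mem_image.2 ⟨_, huB x hx, by ring⟩
    obtain ⟨l, hl, hdl, hHl, hBl⟩ := exists_prime_mul hone (muStable_one H) hB'inv hu0 hu1 huH huB'
    rw [one_mul] at hdl hHl hBl
    have hcardB' : B'.card = Nat.card H * m := by
      rw [hB', Finset.card_image_of_injective _ (sub_left_injective), hB2]
    have hlm : l ≤ m := by
      have hne : (fam l H (decide ((0 : F) ∈ B')) (Nat.card H * m)).Nonempty := by
        refine ⟨B', ?_⟩
        rw [mem_fam]
        exact ⟨hBl, by simp, hcardB'⟩
      obtain ⟨i, hi⟩ := fam_nonempty_form hdl H hHl hne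
      have h2 := Bool.toNat_le (decide ((0 : F) ∈ B'))
      have hi0 : 0 < i := by
        rcases Nat.eq_zero_or_pos i with h0 | h0
        · subst h0; omega
        · exact h0
      have : l ≤ l * i := Nat.le_mul_of_pos_right _ hi0
      omega
    have hlp : l ≠ p := by
      intro hlp'
      rw [← hlp'] at hpq
      have h3 : l ∣ Nat.card F - (Nat.card F - 1) := Nat.dvd_sub hpq hdl
      have h4 : 1 < Nat.card F := Finite.one_lt_card
      have h5 : Nat.card F - (Nat.card F - 1) = 1 := by omega
      rw [h5] at h3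
      exact hl.one_lt.ne' (Nat.dvd_one.1 h3)
    rw [Finset.mem_biUnion]
    refine ⟨l, ?_, ?_⟩
    · rw [Finset.mem_erase, hP, Finset.mem_filter, Finset.mem_range]
      exact ⟨hlp, by omega, hl⟩
    · simp only [S]
      rw [if_pos ⟨hdl, hHl⟩, Finset.mem_filter]
      exact ⟨hB, c, cinv_iff.2 hBl⟩
  -- bound for S
  have hS : ∀ l ∈ P.erase p, (S l).card ≤ Q * T l := by
    intro l hl
    rw [Finset.mem_erase, hP, Finset.mem_filter] at hl
    have hl2 : 2 ≤ l := hl.2.2.two_le
    simp only [S]
    split_ifs with hc
    swap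
    · simp
    obtain ⟨hlq, hHl⟩ := hc
    set SS := 𝓕.filter (fun B => ∃ c, CInv l H c B) with hSS
    have h1 : ∀ B ∈ SS, Nat.card H ≤ ((univ : Finset F).filter (fun c => CInv l H c B)).card := by
      intro B hB
      rw [hSS, Finset.mem_filter] at hB
      obtain ⟨hB1, c, hc⟩ := hB
      have e1 : ((univ.filter (fun h : F => h ∈ H)).image (fun h => c + h)).card = Nat.card H := by
        rw [Finset.card_image_of_injective _ (add_right_injective c), Nat.card_eq_fintype_card,
          Fintype.card_subtype]
      rw [← e1]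
      apply Finset.card_le_card
      intro y hy
      obtain ⟨h, hh, rfl⟩ := Finset.mem_image.1 hy
      rw [Finset.mem_filter] at hh ⊢
      refine ⟨Finset.mem_univ _, ?_⟩
      intro u hu t ht x hx
      have h5 : t + (h - u * h) ∈ H := H.add_mem ht (H.sub_mem hh.2 (hHl u hu h hh.2))
      have h6 := hc u hu _ h5 x hx
      have e : u * (x - (c + h)) + (c + h) + t = u * (x - c) + c + (t + (h - u * h)) := by ring
      rwa [e]
    have h2 : ∀ c : F, (SS.filter (fun B => CInv l H c B)).card ≤ T l := by
      intro c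
      refine le_trans ?_ (card_fam_le hl2 hlq H hHl m)
      have h3 : (SS.filter (fun B => CInv l H c B)).card =
          ((SS.filter (fun B => CInv l H c B)).image (fun B => B.image (fun x => x - c))).card := by
        rw [Finset.card_image_of_injective]
        exact Finset.image_injective sub_left_injective
      rw [h3]
      refine le_trans (Finset.card_le_card ?_) (Finset.card_union_le _ _)
      intro B' hB'
      obtain ⟨B, hB, rfl⟩ := Finset.mem_image.1 hB'
      rw [Finset.mem_filter, hSS, Finset.mem_filter] at hB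
      have hB2 := ((hmem𝓕 B).1 hB.1.1).2
      have hB3 := cinv_iff.1 hB.2
      have hcardB' : (B.image (fun x => x - c)).card = Nat.card H * m := by
        rw [Finset.card_image_of_injective _ (sub_left_injective), hB2]
      rw [Finset.mem_union, mem_fam, mem_fam]
      by_cases h0 : (0 : F) ∈ B.image (fun x => x - c)
      · right
        exact ⟨hB3, by simpa using h0, hcardB'⟩
      · left
        exact ⟨hB3, by simpa using h0, hcardB'⟩
    have h3 : SS.card * Nat.card H ≤ Nat.card F * T l := by
      calc SS.card * Nat.card H = ∑ B ∈ SS, Nat.card H := by rw [Finset.sum_const, smul_eq_mul]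
        _ ≤ ∑ B ∈ SS, ((univ : Finset F).filter (fun c => CInv l H c B)).card :=
            Finset.sum_le_sum h1
        _ = ∑ c ∈ (univ : Finset F), (SS.filter (fun B => CInv l H c B)).card := by
            simp only [Finset.card_filter]
            exact Finset.sum_comm
        _ ≤ ∑ c ∈ (univ : Finset F), T l := Finset.sum_le_sum (fun c _ => h2 c)
        _ = Nat.card F * T l := by
            rw [Finset.sum_const, smul_eq_mul, Finset.card_univ, Nat.card_eq_fintype_card]
    rw [hq] at h3
    have h4 : Nat.card H * SS.card ≤ Nat.card H * (Q * T l) := by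
      calc Nat.card H * SS.card = SS.card * Nat.card H := by ring
        _ ≤ Nat.card H * Q * T l := h3
        _ = _ := by ring
    exact Nat.le_of_mul_le_mul_left h4 hhpos
  -- bound for Bad2
  have hB2 : Bad2.card ≤ if p ∣ m then Q * T p else 0 := by
    have hw : Nat.card (cyc F 1) = p := card_cyc_one p
    have hform : ∀ t, t ∉ H → ∀ B ∈ 𝓕, t ∈ transStab B → IsInv 1 (adj 1 H t) B ∧ p ∣ m := by
      intro t ht B hB htB
      obtain ⟨hB1, hB2⟩ := (hmem𝓕 B).1 hB
      have h1 := isInv_adj Nat.one_pos hB1 htB
      refine ⟨h1, ?_⟩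
      obtain ⟨i, hi⟩ := card_form hone (adj 1 H t) (adj_muStable (muStable_one H) t) B h1
      rw [hB2, card_adj (muStable_one H) ht, hw] at hi
      have h2 : Nat.card H * p ∣ Nat.card H * m := by
        rw [hi]
        apply dvd_add
        · split_ifs
          · exact dvd_rfl
          · exact dvd_zero _
        · rw [one_mul]; exact Dvd.intro _ rfl
      exact Nat.dvd_of_mul_dvd_mul_left hhpos h2
    split_ifs with hpm
    · have hN : ∀ t, t ∉ H → (𝓕.filter (fun B => t ∈ transStab B)).card ≤ T p := by
        intro t ht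
        obtain ⟨m', hm'⟩ := hpm
        have h1 := card_inv_one (adj 1 H t) m'
        rw [card_adj (muStable_one H) ht, hw] at h1
        have h2 : T p = (Nat.card F / (Nat.card H * p)).choose m' := by
          simp only [T]
          rw [hQdef, Nat.div_div_eq_div_mul, hm', Nat.mul_div_cancel_left _ hpp.pos]
        rw [h2, ← h1]
        apply Finset.card_le_card
        intro B hB
        rw [Finset.mem_filter] at hB ⊢
        refine ⟨Finset.mem_univ _, (hform t ht B hB.1 hB.2).1, ?_⟩
        rw [((hmem𝓕 B).1 hB.1).2, hm']; ring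
      have hb := card_bad2 hone H (muStable_one H) 𝓕 (fun B hB => ((hmem𝓕 B).1 hB).1) _ hN
      rw [← hBad2, hw] at hb
      have h3 : Nat.card H * Bad2.card ≤ Nat.card H * (Q * T p) := by
        calc Nat.card H * Bad2.card = Bad2.card * (1 * Nat.card H) := by ring
          _ ≤ Bad2.card * ((p - 1) * Nat.card H) := by
              apply Nat.mul_le_mul_left
              apply Nat.mul_le_mul_right
              have := hpp.two_le
              omega
          _ ≤ (Nat.card F - Nat.card H) * T p := hb
          _ ≤ Nat.card F * T p := Nat.mul_le_mul_right _ (Nat.sub_le _ _)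
          _ = Nat.card H * (Q * T p) := by rw [hq]; ring
      exact Nat.le_of_mul_le_mul_left h3 hhpos
    · rw [Nat.le_zero, Finset.card_eq_zero, hBad2, Finset.filter_eq_empty_iff]
      rintro B hB ⟨t, ht, htB⟩
      exact hpm (hform t ht B hB htB).2
  have hbound : Q.choose m ≤ Q * ∑ l ∈ P, T l := by
    rw [← hcard]
    refine (Finset.card_le_card hcover).trans ((Finset.card_union_le _ _).trans ?_)
    have h1 : ((P.erase p).biUnion S).card ≤ ∑ l ∈ P.erase p, Q * T l :=
      Finset.card_biUnion_le.trans (Finset.sum_le_sum hS)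
    rw [← Finset.mul_sum] at h1
    by_cases hpP : p ∈ P
    · rw [← Finset.add_sum_erase _ _ hpP, mul_add]
      have h2 : Bad2.card ≤ Q * T p := by
        refine hB2.trans ?_
        split_ifs
        · exact le_rfl
        · exact Nat.zero_le _
      omega
    · rw [Finset.erase_eq_of_notMem hpP] at h1
      have h2 : Bad2.card ≤ 0 := by
        refine hB2.trans ?_
        split_ifs with hpm
        · exfalso
          apply hpP
          rw [hP, Finset.mem_filter, Finset.mem_range]
          have := Nat.le_of_dvd (by omega) hpm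
          exact ⟨by omega, hpp⟩
        · exact le_rfl
      rw [Finset.erase_eq_of_notMem hpP]
      omega
  have hineq := choose_ineq Q m hQ hm hmQ
  exact absurd hbound (not_le.2 hineq)

end Pool.Agent.Lib_MP_6575fe_co
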