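import Mathlib
import Pool.Agent.Lib_MP_6575fe_co.One

namespace Pool.Agent.Lib_MP_6575fe_co

open Finset

set_option linter.unusedSectionVars false

variable {F : Type*} [Field F] [Fintype F]

theorem Exact.isInv {d : ℕ} (hd : 0 < d) {H : AddSubgroup F} {B : Finset F}
    (hB : Exact d H B) : IsInv d H B := by
  intro u hu h hh x hx
  have h1 := (hB u h (ne_zero_of_pow hd hu)).2 ⟨hu, hh⟩
  have : u * x + h ∈ (fun x => u * x + h) '' (B : Set F) := ⟨x, hx, rfl⟩
  rw [h1] at this
  exact this

theorem Exact.apply {d : ℕ} {H : AddSubgroup F} {B : Finset F}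
    (hB : Exact d H B) {a b : F} (ha : a ≠ 0) (h : ∀ x ∈ B, a * x + b ∈ B) :
    a ^ d = 1 ∧ b ∈ H := by
  apply (hB a b ha).1
  have hinj : Function.Injective (fun x : F => a * x + b) := by
    intro x y hxy
    exact mul_left_cancel₀ ha (add_right_cancel hxy)
  have hsurj := surj_of_maps B (fun x => a * x + b) hinj h
  ext y
  constructor
  · rintro ⟨x, hx, rfl⟩; exact h x hx
  · intro hy
    obtain ⟨x, hx, hxy⟩ := hsurj y hy
    exact ⟨x, hx, hxy⟩

open scoped Classical in
theorem card_coset (H : AddSubgroup F) (x : F) :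
    (univ.filter (fun t : F => t - x ∈ H)).card = Nat.card H := by
  have : (univ.filter (fun t : F => t - x ∈ H)) =
      (univ.filter (fun h : F => h ∈ H)).image (fun h => x + h) := by
    ext t
    simp only [Finset.mem_filter, Finset.mem_univ, true_and, Finset.mem_image]
    constructor
    · intro h; exact ⟨t - x, h, by ring⟩
    · rintro ⟨h, hh, rfl⟩; simpa using hh
  rw [this, Finset.card_image_of_injective _ (add_right_injective x), Nat.card_eq_fintype_card,
    Fintype.card_subtype]

open scoped Classical in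
theorem coset_sub {d : ℕ} {H : AddSubgroup F} {B : Finset F} (hB : IsInv d H B) {x : F}
    (hx : x ∈ B) : (univ.filter (fun t : F => t - x ∈ H)) ⊆ B := by
  intro t ht
  rw [Finset.mem_filter] at ht
  have := le_transStab hB ht.2 x hx
  rwa [add_sub_cancel] at this

/-- One coset. -/
theorem one_coset {d : ℕ} {H : AddSubgroup F} {B : Finset F} (hB : IsInv d H B)
    (hc : B.card = Nat.card H) : ∃ x ∈ B, ∀ t, t ∈ B ↔ t - x ∈ H := by
  classical
  have hne : B.Nonempty := by rw [← Finset.card_pos, hc]; exact Nat.card_pos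
  obtain ⟨x, hx⟩ := hne
  refine ⟨x, hx, ?_⟩
  have h1 := Finset.eq_of_subset_of_card_le (coset_sub hB hx) (by rw [card_coset, hc])
  intro t
  rw [← h1, Finset.mem_filter]; simp

/-- Two cosets. -/
theorem two_coset {d : ℕ} {H : AddSubgroup F} {B : Finset F} (hB : IsInv d H B)
    (hc : B.card = 2 * Nat.card H) : ∃ x ∈ B, ∃ y ∈ B, y - x ∉ H ∧
      ∀ t, t ∈ B ↔ (t - x ∈ H ∨ t - y ∈ H) := by
  classical
  have hpos : 0 < Nat.card H := Nat.card_pos
  have hne : B.Nonempty := by rw [← Finset.card_pos, hc]; omega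
  obtain ⟨x, hx⟩ := hne
  obtain ⟨y, hy, hy'⟩ : ∃ y ∈ B, y ∉ (univ.filter (fun t : F => t - x ∈ H)) :=
    Finset.exists_mem_notMem_of_card_lt_card (by rw [card_coset, hc]; omega)
  have hyx : y - x ∉ H := by
    intro h; exact hy' (Finset.mem_filter.2 ⟨Finset.mem_univ _, h⟩)
  refine ⟨x, hx, y, hy, hyx, ?_⟩
  have hdis : Disjoint (univ.filter (fun t : F => t - x ∈ H)) (univ.filter (fun t : F => t - y ∈ H)) := by
    rw [Finset.disjoint_left]
    intro t h1 h2
    rw [Finset.mem_filter] at h1 h2
    apply hyx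
    have := H.sub_mem h1.2 h2.2
    have e : t - x - (t - y) = y - x := by ring
    rwa [e] at this
  have h1 := Finset.eq_of_subset_of_card_le
    (Finset.union_subset (coset_sub hB hx) (coset_sub hB hy))
    (by rw [Finset.card_union_of_disjoint hdis, card_coset, card_coset, hc]; omega)
  intro t
  rw [← h1, Finset.mem_union, Finset.mem_filter, Finset.mem_filter]; simp

/-- Three cosets. -/
theorem three_coset {d : ℕ} {H : AddSubgroup F} {B : Finset F} (hB : IsInv d H B)
    (hc : B.card = 3 * Nat.card H) : ∃ x ∈ B, ∃ y ∈ B, ∃ z ∈ B, y - x ∉ H ∧ z - x ∉ H ∧ z - y ∉ H ∧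
      ∀ t, t ∈ B ↔ (t - x ∈ H ∨ t - y ∈ H ∨ t - z ∈ H) := by
  classical
  have hpos : 0 < Nat.card H := Nat.card_pos
  have hne : B.Nonempty := by rw [← Finset.card_pos, hc]; omega
  obtain ⟨x, hx⟩ := hne
  obtain ⟨y, hy, hy'⟩ : ∃ y ∈ B, y ∉ (univ.filter (fun t : F => t - x ∈ H)) :=
    Finset.exists_mem_notMem_of_card_lt_card (by rw [card_coset, hc]; omega)
  have hyx : y - x ∉ H := by
    intro h; exact hy' (Finset.mem_filter.2 ⟨Finset.mem_univ _, h⟩)
  have hdis : Disjoint (univ.filter (fun t : F => t - x ∈ H)) (univ.filter (fun t : F => t - y ∈ H)) := by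
    rw [Finset.disjoint_left]
    intro t h1 h2
    rw [Finset.mem_filter] at h1 h2
    apply hyx
    have := H.sub_mem h1.2 h2.2
    have e : t - x - (t - y) = y - x := by ring
    rwa [e] at this
  obtain ⟨z, hz, hz'⟩ : ∃ z ∈ B, z ∉ (univ.filter (fun t : F => t - x ∈ H)) ∪
      (univ.filter (fun t : F => t - y ∈ H)) :=
    Finset.exists_mem_notMem_of_card_lt_card
      (by rw [Finset.card_union_of_disjoint hdis, card_coset, card_coset, hc]; omega)
  have hzx : z - x ∉ H := by
    intro h; exact hz' (Finset.mem_union_left _ (Finset.mem_filter.2 ⟨Finset.mem_univ _, h⟩))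
  have hzy : z - y ∉ H := by
    intro h; exact hz' (Finset.mem_union_right _ (Finset.mem_filter.2 ⟨Finset.mem_univ _, h⟩))
  refine ⟨x, hx, y, hy, z, hz, hyx, hzx, hzy, ?_⟩
  have hdis2 : Disjoint ((univ.filter (fun t : F => t - x ∈ H)) ∪
      (univ.filter (fun t : F => t - y ∈ H))) (univ.filter (fun t : F => t - z ∈ H)) := by
    rw [Finset.disjoint_left]
    intro t h1 h2
    rw [Finset.mem_union, Finset.mem_filter, Finset.mem_filter] at h1
    rw [Finset.mem_filter] at h2
    rcases h1 with h1 | h1
    · apply hzx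
      have := H.sub_mem h1.2 h2.2
      have e : t - x - (t - z) = z - x := by ring
      rwa [e] at this
    · apply hzy
      have := H.sub_mem h1.2 h2.2
      have e : t - y - (t - z) = z - y := by ring
      rwa [e] at this
  have h1 := Finset.eq_of_subset_of_card_le
    (Finset.union_subset (Finset.union_subset (coset_sub hB hx) (coset_sub hB hy)) (coset_sub hB hz))
    (by rw [Finset.card_union_of_disjoint hdis2, Finset.card_union_of_disjoint hdis,
          card_coset, card_coset, card_coset, hc]; omega)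
  intro t
  rw [← h1, Finset.mem_union, Finset.mem_union, Finset.mem_filter, Finset.mem_filter,
    Finset.mem_filter, or_assoc]; simp

/-- Case (a). -/
theorem zero_a {d : ℕ} (hd : 0 < d) {H : AddSubgroup F} {B : Finset F} (hc : B.card = Nat.card H)
    {u : F} (hu0 : u ≠ 0) (hud : u ^ d ≠ 1) (huH : ∀ h ∈ H, u * h ∈ H) : ¬ Exact d H B := by
  intro hE
  obtain ⟨x, hx, hBx⟩ := one_coset (hE.isInv hd) hc
  apply hud
  refine (hE.apply hu0 (b := x - u * x) ?_).1
  intro t ht
  rw [hBx] at ht ⊢
  have := huH _ ht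
  have e : u * t + (x - u * x) - x = u * (t - x) := by ring
  rwa [e]

/-- Case (c). -/
theorem zero_c {H : AddSubgroup F} {B : Finset F} (hc : B.card = 2 * Nat.card H) :
    ¬ Exact 1 H B := by
  intro hE
  obtain ⟨x, hx, y, hy, hyx, hB⟩ := two_coset (hE.isInv Nat.one_pos) hc
  have h := hE.apply (a := -1) (b := x + y) (neg_ne_zero.2 one_ne_zero) (by
    intro t ht
    rw [hB] at ht ⊢
    rcases ht with h | h
    · right
      have := H.neg_mem h
      have e : -1 * t + (x + y) - y = -(t - x) := by ring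
      rwa [e]
    · left
      have := H.neg_mem h
      have e : -1 * t + (x + y) - x = -(t - y) := by ring
      rwa [e])
  rw [pow_one] at h
  apply hyx
  have e : y - x = x + y := by
    have h2 : (-1 : F) * x = 1 * x := by rw [h.1]
    linear_combination h2
  rw [e]; exact h.2

/-- Case (b). -/
theorem zero_b (p : ℕ) [CharP F p] {d : ℕ} (hd2 : 2 ≤ d) (hdq : d ∣ Nat.card F - 1)
    {H : AddSubgroup F} (hH : MuStable d H) {B : Finset F}
    (hc : B.card = (d + 1) * Nat.card H) {m : ℕ} (hm : d + 1 = p ^ m) : ¬ Exact d H B := by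
  classical
  intro hE
  have : Fact p.Prime := ⟨CharP.char_is_prime F p⟩
  have hpos : 0 < Nat.card H := Nat.card_pos
  have hB := hE.isInv (by omega)
  obtain ⟨i, hi⟩ := card_form hdq H hH B hB
  rw [hc] at hi
  have h0 : (0 : F) ∈ B := by
    by_contra h0
    rw [if_neg h0, zero_add] at hi
    have h1 : d + 1 = d * i := by
      apply Nat.eq_of_mul_eq_mul_left hpos
      calc Nat.card H * (d + 1) = (d + 1) * Nat.card H := by ring
        _ = d * Nat.card H * i := hi
        _ = _ := by ring
    have h2 : d ∣ 1 := by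
      have h3 : d ∣ d + 1 := ⟨i, h1⟩
      exact (Nat.dvd_add_right (dvd_refl d)).1 h3
    have := Nat.le_of_dvd one_pos h2
    omega
  have hHB : ∀ x ∈ H, x ∈ B := fun x hx => mem_of_zero_mem hB h0 hx
  have hcH : (univ.filter (fun y : F => y ∈ H)).card = Nat.card H := by
    rw [Nat.card_eq_fintype_card, Fintype.card_subtype]
  obtain ⟨a, ha, ha'⟩ : ∃ a ∈ B, a ∉ (univ.filter (fun t : F => t ∈ H)) :=
    Finset.exists_mem_notMem_of_card_lt_card (by rw [hcH, hc]; nlinarith)
  have haH : a ∉ H := fun h => ha' (Finset.mem_filter.2 ⟨Finset.mem_univ _, h⟩)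
  have hdis : Disjoint (univ.filter (fun t : F => t ∈ H))
      (univ.filter (fun z => orb d (by omega) H hH a z)) := by
    rw [Finset.disjoint_left]
    rintro y h1 h2
    rw [Finset.mem_filter] at h1 h2
    obtain ⟨_, u, hu, h⟩ := h2
    apply haH
    have h3 := hH _ (inv_pow_one hu) _ (H.sub_mem h1.2 h)
    have hu0 := ne_zero_of_pow (by omega) hu
    have e : u⁻¹ * (y - (y - u * a)) = a := by field_simp; ring
    rwa [e] at h3
  have hBeq := Finset.eq_of_subset_of_card_le (s := (univ.filter (fun t : F => t ∈ H)) ∪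
      (univ.filter (fun z => orb d (by omega) H hH a z))) (t := B) (by
      apply Finset.union_subset
      · intro x hx; exact hHB x (Finset.mem_filter.1 hx).2
      · intro x hx
        exact (isInv_iff (hd := by omega) (hH := hH)).1 hB a ha x (Finset.mem_filter.1 hx).2)
    (by rw [Finset.card_union_of_disjoint hdis, hcH, card_class hdq _ H hH a haH, hc]
        apply le_of_eq; ring)
  have h := hE.apply (a := 1) (b := a) one_ne_zero (by
    intro t ht
    rw [← hBeq, Finset.mem_union, Finset.mem_filter, Finset.mem_filter] at ht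
    rcases ht with ⟨_, ht⟩ | ⟨_, u, hu, ht⟩
    · have := hB 1 (one_pow _) t ht a ha
      have e : 1 * t + a = 1 * a + t := by ring
      rwa [e]
    · by_cases hu1 : u + 1 = 0
      · have e : 1 * t + a = t - u * a := by linear_combination (-a) * hu1 + 2 * a * hu1 
        rw [e]; exact hHB _ ht
      · have h1 : (u + 1) ^ (d + 1) = u + 1 := by
          rw [hm, add_pow_char_pow, one_pow, ← hm, pow_succ, hu, one_mul]
        have h2 : (u + 1) ^ d = 1 := by
          rw [pow_succ] at h1
          have h3 : (u + 1) ^ d * (u + 1) = 1 * (u + 1) := by rw [h1, one_mul]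
          exact mul_right_cancel₀ hu1 h3
        have := hB (u + 1) h2 _ ht a ha
        have e : 1 * t + a = (u + 1) * a + (t - u * a) := by ring
        rwa [e])
  exact haH h.2

end Pool.Agent.Lib_MP_6575fe_co
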