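import Mathlib
import Pool.Agent.Lib_MP_6575fe_co.Zero

namespace Pool.Agent.Lib_MP_6575fe_co

open Finset

set_option linter.unusedSectionVars false

variable {F : Type*} [Field F] [Fintype F]

theorem int_stable (H : AddSubgroup F) (n : ℤ) {h : F} (hh : h ∈ H) : (n : F) * h ∈ H := by
  rw [← zsmul_eq_mul]; exact H.zsmul_mem hh n

/-- In characteristic 7 with three cosets `x, x+v, x+cv` there is always an extra symmetry. -/
theorem seven_aux (h7 : (7 : F) = 0) {H : AddSubgroup F} {B : Finset F} (hE : Exact 1 H B)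
    (x v : F) (c : ℤ) (hc : 2 ≤ c) (hc' : c ≤ 6)
    (hB : ∀ t, t ∈ B ↔ (t - x ∈ H ∨ t - x - v ∈ H ∨ t - x - c * v ∈ H)) : False := by
  have h2 : (2 : F) ≠ 0 := by
    intro h
    have : (1 : F) = 0 := by linear_combination h7 - 3 * h
    exact one_ne_zero this
  -- maps `t ↦ a (t - x) + x + b v`
  have step : ∀ (a b : ℤ), (a : F) ≠ 0 → (a : F) ≠ 1 →
      (b % 7 = 0 ∨ b % 7 = 1 ∨ b % 7 = c) →
      ((a + b) % 7 = 0 ∨ (a + b) % 7 = 1 ∨ (a + b) % 7 = c) →
      ((a * c + b) % 7 = 0 ∨ (a * c + b) % 7 = 1 ∨ (a * c + b) % 7 = c) → False := by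
    intro a b ha ha1 h1 h2 h3
    have key : ∀ (n : ℤ), (n % 7 = 0 ∨ n % 7 = 1 ∨ n % 7 = c) → ∀ t, t - x - n * v ∈ H → t ∈ B := by
      intro n hn t ht
      have hmod : (n : F) = ((n % 7 : ℤ) : F) := by
        have h1 := Int.emod_add_mul_ediv n 7
        have h3 : (n : F) = ((n % 7 + 7 * (n / 7) : ℤ) : F) := by rw [h1]
        rw [h3]; push_cast; rw [h7]; ring
      rw [hmod] at ht
      rw [hB]
      rcases hn with h | h | h
      · left; rw [h] at ht; simpa using ht
      · right; left; rw [h] at ht; simpa using ht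
      · right; right; rw [h] at ht; exact ht
    apply ha1
    have := (hE.apply (a := (a : F)) (b := x + b * v - a * x) ha (by
      intro t ht
      rw [hB] at ht
      rcases ht with ht | ht | ht
      · apply key _ h1
        have := int_stable H a ht
        have e : (a : F) * t + (x + b * v - a * x) - x - b * v = a * (t - x) := by ring
        rwa [e]
      · apply key _ h2
        have := int_stable H a ht
        have e : (a : F) * t + (x + b * v - a * x) - x - ((a + b : ℤ) : F) * v
            = a * (t - x - v) := by push_cast; ring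
        rwa [e]
      · apply key _ h3
        have := int_stable H a ht
        have e : (a : F) * t + (x + b * v - a * x) - x - ((a * c + b : ℤ) : F) * v
            = a * (t - x - c * v) := by push_cast; ring
        rwa [e])).1
    rwa [pow_one] at this
  have n1 : ((-1 : ℤ) : F) ≠ 0 := by push_cast; exact neg_ne_zero.2 one_ne_zero
  have n2 : ((-1 : ℤ) : F) ≠ 1 := by
    push_cast; intro h
    apply h2; linear_combination -h
  have m1 : ((2 : ℤ) : F) ≠ 0 := by push_cast; exact h2
  have m2 : ((2 : ℤ) : F) ≠ 1 := by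
    push_cast; intro h
    apply one_ne_zero (α := F); linear_combination h
  have hcases : c = 2 ∨ c = 3 ∨ c = 4 ∨ c = 5 ∨ c = 6 := by omega
  rcases hcases with rfl | rfl | rfl | rfl | rfl
  · exact step (-1) 2 n1 n2 (by norm_num) (by norm_num) (by norm_num)
  · exact step 2 1 m1 m2 (by norm_num) (by norm_num) (by norm_num)
  · exact step (-1) 1 n1 n2 (by norm_num) (by norm_num) (by norm_num)
  · exact step 2 5 m1 m2 (by norm_num) (by norm_num) (by norm_num)
  · exact step (-1) 0 n1 n2 (by norm_num) (by norm_num) (by norm_num)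

/-- Case (d). -/
theorem zero_d {H : AddSubgroup F} (hq : Nat.card F = 7 * Nat.card H) {B : Finset F}
    (hc : B.card = 3 * Nat.card H) : ¬ Exact 1 H B := by
  classical
  intro hE
  obtain ⟨x, hx, y, hy, z, hz, hyx, hzx, hzy, hB⟩ := three_coset (hE.isInv Nat.one_pos) hc
  have hpos : 0 < Nat.card H := Nat.card_pos
  -- characteristic 7
  obtain ⟨p, hp⟩ := CharP.exists F
  have hpp : p.Prime := CharP.char_is_prime F p
  have hp7 : p = 7 := by
    obtain ⟨n, _, hn⟩ := FiniteField.card F p
    have h1 : (7 : ℕ) ∣ p ^ (n : ℕ) := by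
      rw [← hn, ← Nat.card_eq_fintype_card, hq]; exact Dvd.intro _ rfl
    have h2 := (Nat.Prime.dvd_of_dvd_pow (by norm_num) h1)
    exact ((Nat.prime_dvd_prime_iff_eq (by norm_num) hpp).1 h2).symm
  subst hp7
  have h7 : (7 : F) = 0 := by exact_mod_cast CharP.cast_eq_zero F 7
  set v := y - x with hv
  -- `H + F_7 v` is everything
  have hcard : Nat.card (adj 1 H v) = Nat.card F := by
    rw [card_adj (muStable_one H) hyx, card_cyc_one 7, hq]; ring
  have htop : ∀ s : F, s ∈ adj 1 H v := by
    have h1 : adj 1 H v = ⊤ := AddSubgroup.eq_top_of_card_eq _ hcard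
    intro s; rw [h1]; exact AddSubgroup.mem_top s
  obtain ⟨h0, hh0, e, he, hzeq⟩ := htop (z - x)
  have hemod : ∃ c : ℤ, 0 ≤ c ∧ c < 7 ∧ e = (c : F) := by
    have hint : ∃ n : ℤ, e = (n : F) := by
      unfold cyc at he
      clear hzeq
      induction he using Subring.closure_induction with
      | mem x hx => rw [Set.mem_ofPred_eq, pow_one] at hx; exact ⟨1, by rw [hx]; simp⟩
      | zero => exact ⟨0, by simp⟩
      | one => exact ⟨1, by simp⟩
      | add x y _ _ hx hy =>
        obtain ⟨a, rfl⟩ := hx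
        obtain ⟨b, rfl⟩ := hy
        exact ⟨a + b, by simp⟩
      | neg x _ hx =>
        obtain ⟨a, rfl⟩ := hx
        exact ⟨-a, by simp⟩
      | mul x y _ _ hx hy =>
        obtain ⟨a, rfl⟩ := hx
        obtain ⟨b, rfl⟩ := hy
        exact ⟨a * b, by simp⟩
    obtain ⟨n, hn⟩ := hint
    refine ⟨n % 7, Int.emod_nonneg _ (by norm_num), Int.emod_lt_of_pos _ (by norm_num), ?_⟩
    rw [hn]
    have h1 := Int.emod_add_mul_ediv n 7
    have h3 : (n : F) = ((n % 7 + 7 * (n / 7) : ℤ) : F) := by rw [h1]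
    rw [h3]; push_cast; rw [h7]; simp
  obtain ⟨c, hc0, hc7, rfl⟩ := hemod
  have hc_ne0 : c ≠ 0 := by
    rintro rfl
    apply hzx
    rw [hzeq]; simpa using hh0
  have hc_ne1 : c ≠ 1 := by
    rintro rfl
    apply hzy
    have e1 : z - y = h0 := by
      have : z - x = h0 + ((1 : ℤ) : F) * v := hzeq
      rw [hv] at this
      push_cast at this
      linear_combination this
    rw [e1]; exact hh0
  apply seven_aux h7 hE x v c (by omega) (by omega)
  intro t
  rw [hB]
  have e1 : t - x - v = t - y := by rw [hv]; ring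
  have e2 : t - x - (c : F) * v = (t - z) + h0 := by linear_combination hzeq
  rw [e1, e2]
  constructor
  · rintro (h | h | h)
    · exact Or.inl h
    · exact Or.inr (Or.inl h)
    · exact Or.inr (Or.inr (H.add_mem h hh0))
  · rintro (h | h | h)
    · exact Or.inl h
    · exact Or.inr (Or.inl h)
    · right; right
      have := H.sub_mem h hh0
      rwa [add_sub_cancel_right] at this

theorem card_cyc_pow (p : ℕ) [CharP F p] (d : ℕ) : ∃ m : ℕ, Nat.card (cyc F d) = p ^ m := by
  have hpp : p.Prime := CharP.char_is_prime F p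
  obtain ⟨n, _, hn⟩ := FiniteField.card F p
  have h1 : Nat.card (cyc F d).toAddSubgroup ∣ Nat.card F :=
    AddSubgroup.card_addSubgroup_dvd_card _
  rw [Nat.card_eq_fintype_card (α := F), hn] at h1
  obtain ⟨m, _, hm⟩ := (Nat.dvd_prime_pow hpp).1 h1
  exact ⟨m, hm⟩

theorem index_ne_six {H : AddSubgroup F} : Nat.card F ≠ 6 * Nat.card H := by
  intro hq
  obtain ⟨p, hp⟩ := CharP.exists F
  have hpp : p.Prime := CharP.char_is_prime F p
  obtain ⟨n, _, hn⟩ := FiniteField.card F p
  rw [Nat.card_eq_fintype_card (α := F), hn] at hq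
  have h2 : 2 ∣ p ^ (n : ℕ) := by rw [hq]; exact ⟨3 * Nat.card H, by ring⟩
  have h3 : 3 ∣ p ^ (n : ℕ) := by rw [hq]; exact ⟨2 * Nat.card H, by ring⟩
  have h2' := (Nat.prime_dvd_prime_iff_eq (by norm_num) hpp).1 (Nat.Prime.dvd_of_dvd_pow (by norm_num) h2)
  have h3' := (Nat.prime_dvd_prime_iff_eq (by norm_num) hpp).1 (Nat.Prime.dvd_of_dvd_pow (by norm_num) h3)
  omega

/-- `B = H` when there is no larger multiplicative stabilizer. -/
theorem pos_H {d : ℕ} {H : AddSubgroup F} (hH : MuStable d H)
    (hno : ¬ ∃ u : F, u ≠ 0 ∧ u ^ d ≠ 1 ∧ ∀ h ∈ H, u * h ∈ H) :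
    ∃ B : Finset F, B.card = Nat.card H ∧ Exact d H B := by
  classical
  refine ⟨univ.filter (fun x => x ∈ H), ?_, ?_⟩
  · rw [Nat.card_eq_fintype_card, Fintype.card_subtype]
  · apply exact_of
    · intro u hu h hh x hx
      rw [Finset.mem_filter] at hx ⊢
      exact ⟨Finset.mem_univ _, H.add_mem (hH u hu x hx.2) hh⟩
    · intro t ht
      have := ht 0 (Finset.mem_filter.2 ⟨Finset.mem_univ _, H.zero_mem⟩)
      rw [zero_add, Finset.mem_filter] at this
      exact this.2
    · intro u c hu0 hud huH _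
      exact hno ⟨u, hu0, hud, huH⟩

/-- The exceptional parameters. -/
def Exceptional (F : Type*) [Field F] (p d : ℕ) (H : AddSubgroup F) (k : ℕ) : Prop :=
  (k = Nat.card H ∧ ∃ u : F, u ≠ 0 ∧ u ^ d ≠ 1 ∧ ∀ h ∈ H, u * h ∈ H) ∨
  (k = (d + 1) * Nat.card H ∧ ∃ m : ℕ, d + 1 = p ^ m) ∨
  (d = 1 ∧ k = 2 * Nat.card H) ∨
  (d = 1 ∧ Nat.card F = 7 * Nat.card H ∧ k = 3 * Nat.card H)

theorem main_finset (p : ℕ) [CharP F p] (d : ℕ) (H : AddSubgroup F) (k : ℕ)
    (hdq : d ∣ Nat.card F - 1) (hH : MuStable d H) (hk3 : 3 ≤ k) (hkq : 2 * k ≤ Nat.card F)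
    (hmod : k ≡ 0 [MOD d * Nat.card H] ∨ k ≡ Nat.card H [MOD d * Nat.card H]) :
    (∃ B : Finset F, B.card = k ∧ Exact d H B) ↔ ¬ Exceptional F p d H k := by
  classical
  have hd := d_pos hdq
  have hpos : 0 < Nat.card H := Nat.card_pos
  constructor
  · rintro ⟨B, hBk, hE⟩ (⟨h1, u, hu0, hud, huH⟩ | ⟨h1, m, hm⟩ | ⟨h1, h2⟩ | ⟨h1, h2, h3⟩)
    · exact zero_a hd (hBk.trans h1) hu0 hud huH hE
    · rcases Nat.lt_or_ge d 2 with hd1 | hd2
      · have : d = 1 := by omega
        subst this
        exact zero_c (by rw [hBk, h1]) hE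
      · exact zero_b p hd2 hdq hH (hBk.trans h1) hm hE
    · subst h1
      exact zero_c (hBk.trans h2) hE
    · subst h1
      exact zero_d h2 (hBk.trans h3) hE
  · intro hne
    unfold Exceptional at hne
    push Not at hne
    obtain ⟨na, nb, nc, nd⟩ := hne
    rcases Nat.lt_or_ge d 2 with hd1 | hd2
    · have hd1' : d = 1 := by omega
      subst hd1'
      -- `k = h * m`
      have hm : ∃ m, k = Nat.card H * m := by
        rw [one_mul] at hmod
        rcases hmod with h | h
        · exact (Nat.modEq_zero_iff_dvd.1 h)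
        · have : k ≡ 0 [MOD Nat.card H] := h.trans (Nat.modEq_zero_iff_dvd.2 dvd_rfl)
          exact (Nat.modEq_zero_iff_dvd.1 this)
      obtain ⟨m, rfl⟩ := hm
      have hdvd : Nat.card H ∣ Nat.card F := AddSubgroup.card_addSubgroup_dvd_card H
      obtain ⟨Q, hQ⟩ := hdvd
      have hmQ : 2 * m ≤ Q := by
        have : Nat.card H * (2 * m) ≤ Nat.card H * Q := by
          rw [← hQ]; calc Nat.card H * (2 * m) = 2 * (Nat.card H * m) := by ring
            _ ≤ _ := hkq
        exact Nat.le_of_mul_le_mul_left this hpos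
      have hm0 : m ≠ 0 := by rintro rfl; omega
      have hm2 : m ≠ 2 := by
        rintro rfl
        exact nc rfl (by ring)
      by_cases hm1 : m = 1
      · subst hm1
        rw [mul_one] at na ⊢
        apply pos_H hH
        rintro ⟨u, hu0, hud, huH⟩
        obtain ⟨h, hh, hh'⟩ := na rfl u hu0 hud
        exact hh' (huH h hh)
      · have hm3 : 3 ≤ m := by omega
        have hQ6 : Q ≠ 6 := by
          rintro rfl
          exact index_ne_six (H := H) (by rw [hQ]; ring)
        have hQ7 : Q ≠ 7 := by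
          rintro rfl
          have : m = 3 := by omega
          subst this
          exact nd rfl (by rw [hQ]; ring) (by ring)
        obtain ⟨B, _, hB2, hB3⟩ := pos_one H m hm3 hkq (by
          rw [hQ, Nat.mul_div_cancel_left _ hpos]; omega)
        exact ⟨B, hB2, hB3⟩
    · -- `k = h (e + d j)`
      have hform : ∃ (e : Bool) (j : ℕ), k = e.toNat * Nat.card H + d * Nat.card H * j := by
        rcases hmod with h | h
        · obtain ⟨j, hj⟩ := Nat.modEq_zero_iff_dvd.1 h
          exact ⟨false, j, by simp [hj]⟩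
        · by_cases hkH : Nat.card H ≤ k
          · obtain ⟨j, hj⟩ := (Nat.modEq_iff_dvd' hkH).1 h.symm
            exact ⟨true, j, by simp only [Bool.toNat_true, one_mul]; omega⟩
          · exfalso
            have h1 : Nat.card H < d * Nat.card H := by nlinarith
            have h2 := Nat.ModEq.eq_of_lt_of_lt h (by omega) h1
            omega
      obtain ⟨e, j, hk⟩ := hform
      rcases Nat.lt_trichotomy j 1 with hj | hj | hj
      · have hj0 : j = 0 := by omega
        subst hj0
        cases e with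
        | false => simp at hk; omega
        | true =>
          simp only [Bool.toNat_true, one_mul, mul_zero, add_zero] at hk
          subst hk
          apply pos_H hH
          rintro ⟨u, hu0, hud, huH⟩
          obtain ⟨h, hh, hh'⟩ := na rfl u hu0 hud
          exact hh' (huH h hh)
      · subst hj
        rw [hk] at hkq
        obtain ⟨B, hB, hE⟩ := pos_one_orbit hd2 hdq H hH e hkq (by
          rintro rfl hw
          obtain ⟨m, hm⟩ := card_cyc_pow (F := F) p d
          exact nb (by rw [hk]; simp only [Bool.toNat_true]; ring) m (by rw [← hw, hm]))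
        exact ⟨B, by rw [(mem_fam.1 hB).2.2, hk], hE⟩
      · rw [hk] at hkq
        obtain ⟨B, hB, hE⟩ := pos_ge2 hd2 hdq H hH e j hj hkq
        exact ⟨B, by rw [(mem_fam.1 hB).2.2, hk], hE⟩

end Pool.Agent.Lib_MP_6575fe_co
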